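import Pool.Agent.H23.BG.Defs

/-!
# The bound of Burgess for all primitive Hecke characters: targets, part P

Counting points, averages over the positions, the shift of Burgess.
-/

set_option autoImplicit false

open NumberField NumberField.InfinitePlace NumberField.Units
  NumberField.Units.dirichletUnitTheorem MeasureTheory Set Filter Complex
open scoped nonZeroDivisors ENNReal

namespace Pool.Agent.H23.BG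

open Pool.Agent.H25.HK Pool.Agent.H23.LB Pool.Agent.H23.LC Pool.Agent.H29.DW
open Pool.Agent.H28.RC (Rep ft idl)
open Pool.Agent.H29.TC (dvs cq LC Gn MC)

/-! ### Part A: points in boxes -/

/-- (CB) the number of the points in a box and the theta function. -/
def P_CB : Prop :=
  ∀ n : ℕ, 0 < n → ∃ C : ℝ, 1 ≤ C ∧ ∀ (K : Type) [Field K] [NumberField K],
    Module.finrank ℚ K = n → ∀ (M : FI K) (y : InfinitePlace K → ℝ), M ≠ 0 →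
    (Bx K M y).Finite ∧ 1 ≤ cb K M y ∧ cb K M y - 1 ≤ C * (th K M y - 1) ∧
      cb K M y ≤ C * th K M y ∧ th K M y ≤ C * cb K M y ∧
      Real.exp (-(∑ v, (v.mult : ℝ) * y v) / 2) / cv K M ≤ th K M y ∧
      cb K M (fun v => y v - 2 * Real.log 4) ≤ C * cb K M y

open scoped Classical in
/-- (ZM) the total mass. -/
def P_ZM : Prop :=
  ∀ n : ℕ, 0 < n → ∀ κ : ℝ, 0 < κ → κ ≤ 1 → ∃ C : ℝ, 0 ≤ C ∧ ∀ (K : Type) [Field K]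
    [NumberField K], Module.finrank ℚ K = n → ∀ (ι : Type) [Fintype ι] (M : ι → FI K),
    Reps K M → ∑ _c : ι, volume (Fd K) ≤
      ENNReal.ofReal (C * (cw K * |(discr K : ℝ)| ^ ((1 + κ) / 2)))

/-- (T4) the fourth power of the shifted sums. -/
def P_T4 : Prop :=
  ∀ (K : Type) [Field K] [NumberField K] (X : Finset K)
    (g : K → ℂ) (D : ℝ) (S : Finset K) (β : K → ℂ), 0 ≤ D → (∀ b, ‖β b‖ ≤ D) →
    ∑ r ∈ X, (‖∑ b ∈ S, β b * g (r + b)‖ / (S.card : ℝ)) ^ 4 ≤ D ^ 4 * q4 X g (S : Set K)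

/-- (T5) the sum over the quadruples. -/
def P_T5 : Prop :=
  ∀ (K : Type) [Field K] [NumberField K] (f : Ideal (𝓞 K)), f ≠ ⊥ → ∀ (M : FI K)
    (X : Finset K) (g : K → ℂ) (y : InfinitePlace K → ℝ) (A : ℝ), M ≠ 0 → 0 ≤ A →
    (Bx K M y).Finite → (∀ L : FI K, L ≠ 0 → (Bx K L (fun v => y v - 2 * Real.log 2)).Finite) →
    (∀ b : Fin 4 → K, (∀ i, b i ∈ M) → ∃ e : Fin 4 → Fin 4 → Ideal (𝓞 K),
      (∀ i j, e i j ∈ dvs K f ∧ b i - b j ∈ ((e i j : Ideal (𝓞 K)) : FI K) * M) ∧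
      ‖c4M K X g b‖ ≤ wt A (Nf K f) (Nf K (e 1 0)) (Nf K (e 2 0 ⊓ e 2 1))
        (Nf K (e 3 0 ⊓ e 3 1 ⊓ e 3 2))) →
    q4 X g (Bx K M y) ≤ ((dvs K f).card : ℝ) ^ 5 * ∑ g₂ ∈ dvs K f, ∑ g₃ ∈ dvs K f,
      ∑ g₄ ∈ dvs K f, wt A (Nf K f) (Nf K g₂) (Nf K g₃) (Nf K g₄) *
        (cb K ((g₂ : FI K) * M) (fun v => y v - 2 * Real.log 2) *
          cb K ((g₃ : FI K) * M) (fun v => y v - 2 * Real.log 2) *
          cb K ((g₄ : FI K) * M) (fun v => y v - 2 * Real.log 2)) / cb K M y ^ 3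

open scoped Classical in
/-- (T6) the average of the products of the numbers of points. -/
def P_T6 : Prop :=
  ∀ n : ℕ, 0 < n → ∀ κ : ℝ, 0 < κ → κ ≤ 1 → ∃ C : ℝ, 0 ≤ C ∧ ∀ (K : Type) [Field K]
    [NumberField K], Module.finrank ℚ K = n → ∀ (ι : Type) [Fintype ι] (M : ι → FI K),
    Reps K M → ∀ f g₂ g₃ g₄ : Ideal (𝓞 K), f ≠ ⊥ → f ≤ g₂ → f ≤ g₃ → f ≤ g₄ →
    ∀ (a : InfinitePlace K → ℝ) (τ V : ℝ), V = VV K ⊤ a τ →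
    ∑ c, ∫⁻ z in Fd K, ENNReal.ofReal
      (cb K ((g₂ : FI K) * M c) (fun v => yM K (M c) τ z v + a v - 2 * Real.log 2) *
        cb K ((g₃ : FI K) * M c) (fun v => yM K (M c) τ z v + a v - 2 * Real.log 2) *
        cb K ((g₄ : FI K) * M c) (fun v => yM K (M c) τ z v + a v - 2 * Real.log 2) /
          cb K (M c) (fun v => yM K (M c) τ z v + a v) ^ 3) ≤
      ENNReal.ofReal (C * (cw K * |(discr K : ℝ)| ^ ((1 + κ) / 2)) * Nf K f ^ κ * V ^ (-2 : ℝ) *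
        (1 + V ^ (1 + κ) / Nf K g₂ + V ^ (1 + κ) / Nf K g₃ + V ^ 2 / (Nf K g₂ * Nf K g₃)))

/-- (WT) the numerical inequality for the bounds. -/
def P_WT : Prop :=
  ∀ A N n₂ n₃ n₄ V : ℝ, 1 ≤ A → 1 ≤ N → 1 ≤ n₄ → n₄ ≤ n₃ → n₃ ≤ n₂ → N ^ (1 / 4 : ℝ) ≤ V →
    wt A N n₂ n₃ n₄ * V ^ (-2 : ℝ) * (1 + V / n₂ + V / n₃ + V ^ 2 / (n₂ * n₃)) ≤
      4 * A * N ^ (1 / 2 : ℝ)

open scoped Classical in
/-- (M4) the average of the fourth moments. -/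
def P_M4 : Prop :=
  ∀ n : ℕ, 0 < n → ∀ κ : ℝ, 0 < κ → κ ≤ 1 → ∃ C : ℝ, 0 ≤ C ∧ ∀ (K : Type) [Field K]
    [NumberField K], Module.finrank ℚ K = n → ∀ (f : Ideal (𝓞 K)), f ≠ ⊥ → f ≠ ⊤ →
    ∀ χ : HG K f, PrG f χ → ∀ (ι : Type) [Fintype ι] (M : ι → FI K), Reps K M →
    ∀ X : ι → Finset K, (∀ c, Rep K f (M c) (X c)) → ∀ (a : InfinitePlace K → ℝ) (τ : ℝ),
    Nf K f ^ (1 / 4 : ℝ) ≤ VV K ⊤ a τ → VV K ⊤ a τ ≤ Nf K f ^ 2 →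
    ∑ c, ∫⁻ z in Fd K, ENNReal.ofReal (q4 (X c) (cg χ (M c))
      (Bx K (M c) (fun v => yM K (M c) τ z v + a v))) ≤
      ENNReal.ofReal (C * (cw K * |(discr K : ℝ)| ^ ((1 + κ) / 2)) * Nf K f ^ (1 / 2 + 4 * κ))

/-! ### Part B: points near one -/

open scoped Classical in
/-- (LV) the local volume. -/
def P_LV : Prop :=
  ∀ n : ℕ, 0 < n → ∃ C : ℝ, 0 ≤ C ∧ ∀ (r : Bool) (H : ℝ) (a : ℂ), 1 ≤ H → Rl r a →
    ∫⁻ b in Icc (-(1 / (n : ℝ))) (1 / (n : ℝ)), ∫⁻ θ in Icc (0 : ℝ) (2 * Real.pi),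
      (if H * ‖a * ((Real.exp (b / 2) : ℝ) : ℂ) * aq r θ - 1‖ ≤ 1 / 8 then (1 : ℝ≥0∞) else 0) ≤
    if 1 / 4 ≤ ‖a‖ ∧ ‖a‖ ≤ 4 then ENNReal.ofReal (C * H ^ (-(dg r : ℝ))) else 0

open scoped Classical in
/-- (MN) measurability and invariance of the counting functions. -/
def P_MN : Prop :=
  ∀ (K : Type) [Field K] [NumberField K] (f : Ideal (𝓞 K)) (M : FI K)
    (H : InfinitePlace K → ℝ) (a : ℕ) (r : K), M ≠ 0 → (∀ v, 1 ≤ H v) →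
    Measurable (fun u : ℝ × logSpace K × (InfinitePlace K → ℝ) =>
      nn K M H (yM K M u.1 u.2.1) (om true u.2.2)) ∧
    Measurable (fun u : ℝ × logSpace K × (InfinitePlace K → ℝ) =>
      nu K f M H a (yM K M u.1 u.2.1) (om true u.2.2) r) ∧
    ∀ (τ : ℝ) (z : logSpace K), ∀ l ∈ unitLattice K,
      ∫⁻ θ in An K, nn K M H (yM K M τ (z + l)) (om true θ) =
        ∫⁻ θ in An K, nn K M H (yM K M τ z) (om true θ)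

open scoped Classical in
/-- (FM) the first moment. -/
def P_FM : Prop :=
  ∀ n : ℕ, 0 < n → ∀ κ : ℝ, 0 < κ → κ ≤ 1 → ∃ C : ℝ, 0 ≤ C ∧ ∀ (K : Type) [Field K]
    [NumberField K], Module.finrank ℚ K = n → ∀ (ι : Type) [Fintype ι] (M : ι → FI K),
    Reps K M → ∀ (H : InfinitePlace K → ℝ) (τ₁ : ℝ), (∀ v, 1 ≤ H v) →
    ∫⁻ τ in Icc τ₁ (τ₁ + 1), ∑ c, ∫⁻ z in Fd K, ∫⁻ θ in An K,
      nn K (M c) H (yM K (M c) τ z) (om true θ) ≤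
      ENNReal.ofReal (C * (cw K * |(discr K : ℝ)| ^ ((1 + κ) / 2)) * (HH H)⁻¹ *
        (Real.exp (-τ₁) / Real.sqrt |(discr K : ℝ)|) ^ (1 + κ))

open scoped Classical in
/-- (N1) the first moment of `ν`. -/
def P_N1 : Prop :=
  ∀ n : ℕ, 0 < n → ∀ κ : ℝ, 0 < κ → κ ≤ 1 → ∃ C : ℝ, 0 ≤ C ∧ ∀ (K : Type) [Field K]
    [NumberField K], Module.finrank ℚ K = n → ∀ f : Ideal (𝓞 K), f ≠ ⊥ →
    ∀ (ι : Type) [Fintype ι] (M : ι → FI K), Reps K M →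
    ∀ X : ι → Finset K, (∀ c, Rep K f (M c) (X c)) → ∀ (H : InfinitePlace K → ℝ)
    (P : Finset ℕ) (A τ₁ : ℝ), (∀ v, 1 ≤ H v) → 1 ≤ A →
    (∀ a ∈ P, a.Prime ∧ A / 4 < a ∧ (a : ℝ) ≤ A ∧ Ideal.span {(a : 𝓞 K)} ⊔ f = ⊤) →
    ∫⁻ τ in Icc τ₁ (τ₁ + 1), ∑ c, ∫⁻ z in Fd K, ∫⁻ θ in An K, ∑ r ∈ X c,
      ∑ a ∈ P, nu K f (M c) H a (yM K (M c) τ z) (om true θ) r ≤
      ENNReal.ofReal (C * (cw K * |(discr K : ℝ)| ^ ((1 + κ) / 2)) * P.card *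
        (A ^ n * Vt K H τ₁) * (A ^ n * HH H * Real.exp |τ₁|) ^ κ)

open scoped Classical in
/-- (N2) the second moment of `ν`. -/
def P_N2 : Prop :=
  ∀ n : ℕ, 0 < n → ∀ κ : ℝ, 0 < κ → κ ≤ 1 → ∃ C : ℝ, 0 ≤ C ∧ ∀ (K : Type) [Field K]
    [NumberField K], Module.finrank ℚ K = n → ∀ f : Ideal (𝓞 K), f ≠ ⊥ →
    ∀ (ι : Type) [Fintype ι] (M : ι → FI K), Reps K M →
    ∀ X : ι → Finset K, (∀ c, Rep K f (M c) (X c)) → ∀ (H : InfinitePlace K → ℝ)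
    (P : Finset ℕ) (A V τ₁ : ℝ), (∀ v, 1 ≤ H v) → 1 ≤ A → V = A ^ n * Vt K H τ₁ →
    (∀ a ∈ P, a.Prime ∧ A / 4 < a ∧ (a : ℝ) ≤ A ∧ Ideal.span {(a : 𝓞 K)} ⊔ f = ⊤) →
    ∫⁻ τ in Icc τ₁ (τ₁ + 1), ∑ c, ∫⁻ z in Fd K, ∫⁻ θ in An K, ∑ r ∈ X c,
      (∑ a ∈ P, nu K f (M c) H a (yM K (M c) τ z) (om true θ) r) ^ 2 ≤
      ENNReal.ofReal (C * (cw K * |(discr K : ℝ)| ^ ((1 + κ) / 2)) *
        (P.card * (V + V ^ 2 / Nf K f) +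
          P.card ^ 2 * (V / A ^ n + A ^ n * V / Nf K f + V ^ 2 / Nf K f)) *
        (Nf K f * A ^ n * HH H * Real.exp |τ₁|) ^ (4 * κ))

/-- (PR) primes. -/
def P_PR : Prop :=
  ∀ δ ε : ℝ, 0 < δ → 0 < ε → ∃ c : ℝ, 0 < c ∧ ∃ N₀ : ℕ, ∀ N : ℕ, N₀ ≤ N → ∀ A : ℝ,
    (N : ℝ) ^ δ ≤ A → ∃ P : Finset ℕ, (∀ a ∈ P, a.Prime ∧ A / 4 < a ∧ (a : ℝ) ≤ A ∧
      Nat.Coprime a N) ∧ c * A ^ (1 - ε) ≤ P.card

/-! ### Part C: the shift -/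

/-- (SP) separation of the variables at one place. -/
def P_SP : Prop :=
  ∃ C : ℝ, 1 ≤ C ∧ ∀ (r : Bool) (c : ℂ) (H B : ℝ) (p : ℂ → ℂ), 1 ≤ H → ‖c‖ ≤ H ^ 2 →
    Rl r c → 0 ≤ B → Bmp 2 B p → ∃ α β : ℂ → ℂ → ℂ,
    (∀ w, Measurable (fun s => α s w)) ∧ (∀ b, Measurable (fun s => β s b)) ∧
    (∀ s w, ‖α s w‖ ≤ 1) ∧ (∀ s w, 1 / 8 < H * ‖w - 1‖ → α s w = 0) ∧
    (∀ s b, ‖β s b‖ ≤ C * B) ∧
    ∀ w b : ℂ, Rl r w → Rl r b → H * ‖b‖ ≤ 1 / 16 →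
      tw1 c H p (w + b) = ∫ s in Sq1, α s w * β s b

/-- (SG) separation of the variables. -/
def P_SG : Prop :=
  ∀ n : ℕ, ∃ C : ℝ, 1 ≤ C ∧ ∀ (K : Type) [Field K] [NumberField K], Module.finrank ℚ K = n →
    ∀ (cp : InfinitePlace K → ℂ) (H : InfinitePlace K → ℝ) (p : InfinitePlace K → ℂ → ℂ)
    (B : ℝ), Pw cp H → 1 ≤ B → (∀ v, Bmp 2 B (p v)) →
    ∃ α β : (InfinitePlace K → ℂ) → (InfinitePlace K → ℂ) → ℂ,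
    (∀ w, Measurable (fun s => α s w)) ∧ (∀ b, Measurable (fun s => β s b)) ∧
    (∀ s w, ‖α s w‖ ≤ 1) ∧ (∀ s w v, 1 / 8 < H v * ‖w v - 1‖ → α s w = 0) ∧
    (∀ s b, ‖β s b‖ ≤ C * B ^ n) ∧
    ∀ w b : InfinitePlace K → ℂ, (∀ v, Rl (rv v) (w v)) → (∀ v, Rl (rv v) (b v)) →
      (∀ v, H v * ‖b v‖ ≤ 1 / 16) →
      ∏ v, tw1 (cp v) (H v) (p v) (w v + b v) = ∫ s in SqK K, α s w * β s b

open scoped Classical in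
/-- (SH) the shift at one position. -/
def P_SH : Prop :=
  ∀ (K : Type) [Field K] [NumberField K] (f : Ideal (𝓞 K)), f ≠ ⊥ → f ≠ ⊤ → ∀ (χ : HG K f)
    (cp : InfinitePlace K → ℂ) (H : InfinitePlace K → ℝ) (p : InfinitePlace K → ℂ → ℂ)
    (B : ℝ) (α β : (InfinitePlace K → ℂ) → (InfinitePlace K → ℂ) → ℂ) (D : ℝ), Pw cp H →
    (∀ v, Bmp 2 B (p v)) →
    (∀ w, Measurable (fun s => α s w)) → (∀ b, Measurable (fun s => β s b)) →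
    (∀ s w, ‖α s w‖ ≤ 1) → (∀ s w v, 1 / 8 < H v * ‖w v - 1‖ → α s w = 0) →
    (∀ s b, ‖β s b‖ ≤ D) →
    (∀ w b : InfinitePlace K → ℂ, (∀ v, Rl (rv v) (w v)) → (∀ v, Rl (rv v) (b v)) →
      (∀ v, H v * ‖b v‖ ≤ 1 / 16) →
      ∏ v, tw1 (cp v) (H v) (p v) (w v + b v) = ∫ s in SqK K, α s w * β s b) →
    ∀ (M : FI K) (X : Finset K) (a : ℕ) (y y' : InfinitePlace K → ℝ)
      (ω : InfinitePlace K → ℂ) (S : Finset K), M ≠ 0 → Rep K f M X → 0 < a →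
      Ideal.span {(a : 𝓞 K)} ⊔ f = ⊤ → Pos ω → (∀ v, y' v = y v + 2 * Real.log a) →
      (S : Set K) = Bx K M (fun v => y' v + hs H v) →
      ENNReal.ofReal ‖∑' x : {x : K // x ∈ M}, cg χ M x * Wg cp H p x y ω‖ ≤
        ∫⁻ s in SqK K, ∑ r ∈ X, nu K f M H a y' ω r *
          ENNReal.ofReal (‖∑ b ∈ S, β s (fun v => wv v b y' ω) * cg χ M (r + b)‖ /
            (S.card : ℝ))

open scoped Classical in
/-- (HL) the inequality of Hoelder over the positions. -/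
def P_HL : Prop :=
  ∀ n : ℕ, 0 < n → ∃ C : ℝ, 0 ≤ C ∧ ∀ (K : Type) [Field K] [NumberField K],
    Module.finrank ℚ K = n → ∀ f : Ideal (𝓞 K), f ≠ ⊥ → f ≠ ⊤ → ∀ (χ : HG K f)
    (ι : Type) [Fintype ι] (M : ι → FI K), Reps K M →
    ∀ X : ι → Finset K, (∀ c, Rep K f (M c) (X c)) →
    ∀ (cp : InfinitePlace K → ℂ) (H : InfinitePlace K → ℝ) (p : InfinitePlace K → ℂ → ℂ)
    (B : ℝ), Pw cp H → 1 ≤ B → (∀ v, Bmp 2 B (p v)) →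
    ∀ (P : Finset ℕ) (A τ₁ c₁ c₂ c₃ : ℝ), P.Nonempty → 1 ≤ A → 0 < c₁ → 0 < c₂ → 0 < c₃ →
    (∀ a ∈ P, a.Prime ∧ A / 4 < a ∧ (a : ℝ) ≤ A ∧ Ideal.span {(a : 𝓞 K)} ⊔ f = ⊤) →
    (∫⁻ τ in Icc (τ₁ + n * Real.log (A / 4)) (τ₁ + 1 + n * Real.log A), ∑ c,
      ∫⁻ z in Fd K, ∫⁻ θ in An K, ∑ r ∈ X c,
        ∑ a ∈ P, nu K f (M c) H a (yM K (M c) τ z) (om true θ) r ≤ ENNReal.ofReal c₁) →
    (∫⁻ τ in Icc (τ₁ + n * Real.log (A / 4)) (τ₁ + 1 + n * Real.log A), ∑ c,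
      ∫⁻ z in Fd K, ∫⁻ θ in An K, ∑ r ∈ X c,
        (∑ a ∈ P, nu K f (M c) H a (yM K (M c) τ z) (om true θ) r) ^ 2 ≤
          ENNReal.ofReal c₂) →
    (∫⁻ τ in Icc (τ₁ + n * Real.log (A / 4)) (τ₁ + 1 + n * Real.log A), ∑ c,
      ∫⁻ z in Fd K, ENNReal.ofReal (q4 (X c) (cg χ (M c))
        (Bx K (M c) (fun v => yM K (M c) τ z v + hs H v))) ≤ ENNReal.ofReal c₃) →
    ∫⁻ τ in Icc τ₁ (τ₁ + 1), ∑ c, ∫⁻ z in Fd K, ∫⁻ θ in An K,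
      ENNReal.ofReal ‖∑' x : {x : K // x ∈ M c}, cg χ (M c) x *
        Wg cp H p x (yM K (M c) τ z) (om true θ)‖ ≤
      ENNReal.ofReal (C * B ^ n * (P.card : ℝ)⁻¹ *
        (c₁ ^ (1 / 2 : ℝ) * c₂ ^ (1 / 4 : ℝ) * c₃ ^ (1 / 4 : ℝ)))

/-! ### Part D: the bounds for the positions -/

open scoped Classical in
/-- (TV) the trivial bound. -/
def P_TV : Prop :=
  ∀ n : ℕ, 0 < n → ∀ κ : ℝ, 0 < κ → κ ≤ 1 → ∃ C : ℝ, 0 ≤ C ∧ ∀ (K : Type) [Field K]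
    [NumberField K], Module.finrank ℚ K = n → ∀ (ι : Type) [Fintype ι] (M : ι → FI K),
    Reps K M → ∀ (cp : InfinitePlace K → ℂ) (H : InfinitePlace K → ℝ)
    (p : InfinitePlace K → ℂ → ℂ) (B τ₁ : ℝ) (cc : ι → K → ℂ), Pw cp H → 1 ≤ B →
    (∀ v, Bmp 2 B (p v)) → (∀ c, ∀ x ∈ M c, ‖cc c x‖ ≤ 1) →
    ∫⁻ τ in Icc τ₁ (τ₁ + 1), ∑ c, ∫⁻ z in Fd K, ∫⁻ θ in An K,
      ENNReal.ofReal ‖∑' x : {x : K // x ∈ M c}, cc c x *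
        Wg cp H p x (yM K (M c) τ z) (om true θ)‖ ≤
      ENNReal.ofReal (C * B ^ n * (cw K * |(discr K : ℝ)| ^ ((1 + κ) / 2)) * (HH H)⁻¹ *
        (Real.exp (-τ₁) / Real.sqrt |(discr K : ℝ)|) ^ (1 + κ))

open scoped Classical in
/-- (MR) the bound of Burgess in the middle range. -/
def P_MR : Prop :=
  ∀ n : ℕ, 0 < n → ∀ ε : ℝ, 0 < ε → ε ≤ 1 → ∃ C N₀ : ℝ, 0 ≤ C ∧ ∀ (K : Type) [Field K]
    [NumberField K], Module.finrank ℚ K = n → ∀ f : Ideal (𝓞 K), f ≠ ⊥ → N₀ ≤ Nf K f →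
    1 < Nf K f → ∀ χ : HG K f, PrG f χ → ∀ (ι : Type) [Fintype ι] (M : ι → FI K), Reps K M →
    ∀ (cp : InfinitePlace K → ℂ) (H : InfinitePlace K → ℝ) (p : InfinitePlace K → ℂ → ℂ)
    (B V τ₁ : ℝ), Pw cp H → 1 ≤ B → (∀ v, Bmp 2 B (p v)) → V = Vt K H τ₁ →
    Nf K f ^ (3 / 8 : ℝ) ≤ V → V ≤ Nf K f ^ (3 / 4 : ℝ) →
    ∫⁻ τ in Icc τ₁ (τ₁ + 1), ∑ c, ∫⁻ z in Fd K, ∫⁻ θ in An K,
      ENNReal.ofReal ‖∑' x : {x : K // x ∈ M c}, cg χ (M c) x *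
        Wg cp H p x (yM K (M c) τ z) (om true θ)‖ ≤
      ENNReal.ofReal (C * B ^ n * cw K * |(discr K : ℝ)| ^ (1 / 2 : ℝ) *
        (|(discr K : ℝ)| * Nf K f * HH H) ^ ε * Psi n (Nf K f) V)

open scoped Classical in
/-- (BB) the bound of Burgess for all positions. -/
def P_BB : Prop :=
  ∀ n : ℕ, 0 < n → ∀ ε : ℝ, 0 < ε → ε ≤ 1 → ∃ C : ℝ, 0 ≤ C ∧ ∀ (K : Type) [Field K]
    [NumberField K], Module.finrank ℚ K = n → ∀ f : Ideal (𝓞 K), f ≠ ⊥ →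
    ∀ χ : HG K f, PrG f χ → ∀ (ι : Type) [Fintype ι] (M : ι → FI K), Reps K M →
    ∀ (cp : InfinitePlace K → ℂ) (H : InfinitePlace K → ℝ) (p : InfinitePlace K → ℂ → ℂ)
    (B τ₁ : ℝ), Pw cp H → 1 ≤ B → (∀ v, Bmp 2 B (p v)) →
    ∫⁻ τ in Icc τ₁ (τ₁ + 1), ∑ c, ∫⁻ z in Fd K, ∫⁻ θ in An K,
      ENNReal.ofReal ‖∑' x : {x : K // x ∈ M c}, cg χ (M c) x *
        Wg cp H p x (yM K (M c) τ z) (om true θ)‖ ≤
      ENNReal.ofReal (C * B ^ n * cw K * |(discr K : ℝ)| ^ (1 / 2 : ℝ) *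
        (|(discr K : ℝ)| * Nf K f * HH H * Real.exp |τ₁|) ^ ε *
          Psi n (Nf K f) (Vt K H τ₁))

end Pool.Agent.H23.BG
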