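import Pool.Agent.H23.BG.Defs

/-!
# The bound of Burgess for all primitive Hecke characters: targets, part F

Unfolding, approximate functional equation, the final bounds.
-/

set_option autoImplicit false

open NumberField NumberField.InfinitePlace NumberField.Units
  NumberField.Units.dirichletUnitTheorem MeasureTheory Set Filter Complex
open scoped nonZeroDivisors ENNReal

namespace Pool.Agent.H23.BG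

open Pool.Agent.H25.HK Pool.Agent.H23.LB Pool.Agent.H23.LC Pool.Agent.H29.DW
open Pool.Agent.H28.RC (Rep ft idl)
open Pool.Agent.H29.TC (dvs cq LC Gn MC)

open scoped Classical in
/-- (UP) unfolding. -/
def F_UP : Prop :=
  ∀ (K : Type) [Field K] [NumberField K] (f : Ideal (𝓞 K)), f ≠ ⊥ → ∀ (χ : HG K f)
    (ι : Type) [Fintype ι] (M : ι → FI K), Reps K M → ∀ (cp : InfinitePlace K → ℂ)
    (H : InfinitePlace K → ℝ) (t : ℝ) (v : ℝ → ℂ), Pw cp H →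
    (∃ C : ℝ, ∀ x : ℝ, 1 ≤ x → ‖v x‖ ≤ C * x ^ (-(3 / 2) : ℝ)) →
    ∑ c, ∫ p in Fd K ×ˢ (univ : Set ℝ) ×ˢ An K, ec K χ.ν p.1 * cexp (t * p.2.1 * I) *
      (ek χ.k p.2.2 * ∑' x : {x : K // x ∈ M c ∧ x ≠ 0}, cg χ (M c) x *
        v (Ideal.absNorm (idl K (M c) x)) *
          Wg cp H pb x (yM K (M c) p.2.1 (zs true p.1)) (om true p.2.2)) =
      (torsionOrder K : ℂ) * WH K cp H χ.k χ.ν t *
        ∑' J : NZI K, χ.ψ J.1 * v (Ideal.absNorm J.1) *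
          (Ideal.absNorm J.1 : ℂ) ^ (-(t * I : ℂ))

/-- (WL) the lower bound for the Mellin transform. -/
def F_WL : Prop :=
  ∀ n : ℕ, 0 < n → ∃ c₀ : ℝ, 0 < c₀ ∧ ∀ (K : Type) [Field K] [NumberField K],
    Module.finrank ℚ K = n → ∀ (k : InfinitePlace K → ℤ) (ν : InfinitePlace K → ℝ) (t : ℝ),
    ∑ v, (v.mult : ℝ) * ν v = 0 →
    c₀ * (HH (Hp2 (cpar k ν t)))⁻¹ ≤ ‖WH K (cpar k ν t) (Hp2 (cpar k ν t)) k ν t‖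

open scoped Classical in
/-- (MS) measurability, bounds, supports. -/
def F_MS : Prop :=
  ∀ (K : Type) [Field K] [NumberField K] (M : FI K) (cp : InfinitePlace K → ℂ)
    (H : InfinitePlace K → ℝ) (p : InfinitePlace K → ℂ → ℂ) (cc : K → ℂ) (s : Bool), M ≠ 0 →
    Pw cp H → (∀ v, ∃ B : ℝ, Bmp 0 B (p v)) → (∃ C : ℝ, ∀ x ∈ M, ‖cc x‖ ≤ C) →
    Measurable (fun u : logSpace K × ℝ × (InfinitePlace K → ℝ) =>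
      ∑' x : {x : K // x ∈ M}, cc x * Wg cp H p x (yM K M u.2.1 (zs s u.1)) (om s u.2.2)) ∧
    Measurable (fun u : logSpace K × ℝ × (InfinitePlace K → ℝ) =>
      ∑' x : {x : K // x ∈ M ∧ x ≠ 0}, cc x *
        Wg cp H p x (yM K M u.2.1 (zs s u.1)) (om s u.2.2)) ∧
    (∀ (z : logSpace K) (τ : ℝ) (θ : InfinitePlace K → ℝ) (x : K), x ∈ M →
      Wg cp H p x (yM K M τ z) (om s θ) ≠ 0 → x ≠ 0 ∧ τ ≤ Module.finrank ℚ K) ∧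
    ∀ T : ℝ, ∃ C : ℝ, ∀ (z : logSpace K) (τ : ℝ) (θ : InfinitePlace K → ℝ), z ∈ Fd K →
      -T ≤ τ → Summable (fun x : {x : K // x ∈ M} =>
        ‖Wg cp H p x (yM K M τ (zs s z)) (om s θ)‖) ∧
      ∑' x : {x : K // x ∈ M}, ‖Wg cp H p x (yM K M τ (zs s z)) (om s θ)‖ ≤ C

open scoped Classical in
/-- (IN) the integral representation of the weights. -/
def F_IN : Prop :=
  ∀ (K : Type) [Field K] [NumberField K] (M : FI K) (cp : InfinitePlace K → ℂ)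
    (H : InfinitePlace K → ℝ) (cc : K → ℂ) (s : Bool) (κ X B : ℝ) (v : ℝ → ℂ), M ≠ 0 →
    Pw cp H → (∃ C : ℝ, ∀ x ∈ M, ‖cc x‖ ≤ C) → 0 < κ → κ ≤ 1 → 0 < X → 0 ≤ B →
    Wt κ X B v → ∀ (z : logSpace K) (τ : ℝ) (θ : InfinitePlace K → ℝ) (σ : ℝ),
    (σ = κ ∨ σ = 1) →
    ENNReal.ofReal (‖∑' x : {x : K // x ∈ M ∧ x ≠ 0}, cc x *
        v (Ideal.absNorm (idl K M x)) * Wg cp H pb x (yM K M τ z) (om s θ)‖) ≤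
      ENNReal.ofReal (B * X ^ σ * Real.exp (τ * (1 / 2 + σ))) * ∫⁻ u : ℝ,
        ENNReal.ofReal (Real.exp (-u ^ 2 / 4) * ‖∑' x : {x : K // x ∈ M}, cc x *
          Wg cp H (pl H (1 / 2 + σ + u * I)) x (yM K M τ z) (om s θ)‖)

open scoped Classical in
/-- (BS) the bound for the integral over all positions. -/
def F_BS : Prop :=
  ∀ n : ℕ, 0 < n → ∀ ε κ : ℝ, 0 < ε → ε ≤ 1 → 0 < κ → κ ≤ ε / 16 → ∃ C : ℝ, 0 ≤ C ∧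
    ∀ (K : Type) [Field K] [NumberField K], Module.finrank ℚ K = n → ∀ f : Ideal (𝓞 K),
    f ≠ ⊥ → ∀ χ : HG K f, PrG f χ → ∀ (ι : Type) [Fintype ι] (M : ι → FI K), Reps K M →
    ∀ (cp : InfinitePlace K → ℂ) (H : InfinitePlace K → ℝ) (X B : ℝ) (v : ℝ → ℂ), Pw cp H →
    1 ≤ X → X ^ 2 ≤ 3 ^ n * (|(discr K : ℝ)| * Nf K f * HH H ^ 2) → 0 ≤ B → Wt κ X B v →
    ∑ c, ∫⁻ u in Fd K ×ˢ (univ : Set ℝ) ×ˢ An K,
      ENNReal.ofReal ‖∑' x : {x : K // x ∈ M c ∧ x ≠ 0}, cg χ (M c) x *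
        v (Ideal.absNorm (idl K (M c) x)) *
          Wg cp H pb x (yM K (M c) u.2.1 (zs true u.1)) (om true u.2.2)‖ ≤
    ENNReal.ofReal (C * B * cw K * (|(discr K : ℝ)| * Nf K f * HH H) ^ ε *
      (|(discr K : ℝ)| ^ (1 / 4 : ℝ) * HH H ^ (-(1 / 2) : ℝ) *
        Nf K f ^ (1 / 4 - 1 / (16 * (n : ℝ)))))

/-- (BU) the bound for the first sum. -/
def F_BU : Prop :=
  ∀ n : ℕ, 0 < n → ∀ ε κ : ℝ, 0 < ε → ε ≤ 1 → 0 < κ → κ ≤ ε / 32 → ∃ C : ℝ, 0 ≤ C ∧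
    ∀ (K : Type) [Field K] [NumberField K], Module.finrank ℚ K = n → ∀ f : Ideal (𝓞 K),
    f ≠ ⊥ → ∀ χ : HG K f, PrG f χ → ∀ (t B : ℝ) (v : ℝ → ℂ), 0 ≤ B →
    Wt κ (Real.sqrt (|(discr K : ℝ)| * Nf K f * Ci χ.k χ.ν t)) B v →
    ‖∑' J : NZI K, χ.ψ J.1 * v (Ideal.absNorm J.1) *
      (Ideal.absNorm J.1 : ℂ) ^ (-(t * I : ℂ))‖ ≤
    C * B * (|(discr K : ℝ)| * Nf K f * Ci χ.k χ.ν t) ^ ε *
      (|(discr K : ℝ)| ^ (1 / 4 : ℝ) * Ci χ.k χ.ν t ^ (1 / 4 : ℝ) *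
        Nf K f ^ (1 / 4 - 1 / (16 * (n : ℝ))))

/-- (DU) the dual coefficients of a primitive character. -/
def F_DU : Prop :=
  ∀ (K : Type) [Field K] [NumberField K] (f : Ideal (𝓞 K)), f ≠ ⊥ → ∀ (D : Sys K f)
    (χ : HG K f), PrG f χ → ∃ W : ℂ, ‖W‖ ≤ 1 ∧ ∀ J : Ideal (𝓞 K), J ≠ ⊥ →
      cd D χ J = W * (starRingEnd ℂ) (χ.ψ J)

/-- (WB) the bound of Burgess for the `L`-function. -/
def F_WB : Prop :=
  ∀ n : ℕ, 0 < n → ∀ ε : ℝ, 0 < ε → ∃ C : ℝ, ∀ (K : Type) [Field K] [NumberField K],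
    Module.finrank ℚ K = n → ∀ f : Ideal (𝓞 K), f ≠ ⊥ → ∀ χ : HG K f, PrG f χ →
    ∀ (D : Sys K f) (L : ℂ → ℂ), IsL D χ L → ∀ t : ℝ, ‖L (1 / 2 + t * I)‖ ≤
      C * (|(discr K : ℝ)| * Nf K f * Ci χ.k χ.ν t) ^ ε *
        (|(discr K : ℝ)| ^ (1 / 4 : ℝ) * Ci χ.k χ.ν t ^ (1 / 4 : ℝ) *
          Nf K f ^ (1 / 4 - 1 / (16 * (n : ℝ))))

/-- (BD) the hybrid Weyl bound for the first sum, any modulus. -/
def F_BD : Prop :=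
  ∀ n : ℕ, 0 < n → ∀ ε κ : ℝ, 0 < ε → ε ≤ 1 → 0 < κ → κ ≤ ε / 32 → ∃ C : ℝ, 0 ≤ C ∧
    ∀ (K : Type) [Field K] [NumberField K], Module.finrank ℚ K = n → ∀ f : Ideal (𝓞 K),
    f ≠ ⊥ → ∀ χ : HG K f, ∀ (t B : ℝ) (v : ℝ → ℂ), 0 ≤ B →
    Wt κ (Real.sqrt (|(discr K : ℝ)| * Nf K f * Ci χ.k χ.ν t)) B v →
    ‖∑' J : NZI K, χ.ψ J.1 * v (Ideal.absNorm J.1) *
      (Ideal.absNorm J.1 : ℂ) ^ (-(t * I : ℂ))‖ ^ 2 ≤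
    C * B ^ 2 * (|(discr K : ℝ)| * Nf K f * Ci χ.k χ.ν t) ^ ε *
      ((classNumber K * regulator K) * (Nf K f + 1) * Ci χ.k χ.ν t ^ (1 / 3 : ℝ))

/-- (WD) the hybrid Weyl bound for the `L`-function, any modulus. -/
def F_WD : Prop :=
  ∀ n : ℕ, 0 < n → ∀ ε : ℝ, 0 < ε → ∃ C : ℝ, ∀ (K : Type) [Field K] [NumberField K],
    Module.finrank ℚ K = n → ∀ f : Ideal (𝓞 K), f ≠ ⊥ → ∀ χ : HG K f, PrG f χ →
    ∀ (D : Sys K f) (L : ℂ → ℂ), IsL D χ L → ∀ t : ℝ, ‖L (1 / 2 + t * I)‖ ≤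
      C * (|(discr K : ℝ)| * Nf K f * Ci χ.k χ.ν t) ^ ε *
        (|(discr K : ℝ)| ^ (1 / 4 : ℝ) * Nf K f ^ (1 / 2 : ℝ) *
          Ci χ.k χ.ν t ^ (1 / 6 : ℝ))

/-- (FI) subconvexity for all primitive Hecke characters. -/
def F_FI : Prop :=
  ∀ n : ℕ, 0 < n → ∀ ε : ℝ, 0 < ε → ∃ C : ℝ, ∀ (K : Type) [Field K] [NumberField K],
    Module.finrank ℚ K = n → ∀ f : Ideal (𝓞 K), f ≠ ⊥ → ∀ χ : HG K f, PrG f χ →
    ∃ L : ℂ → ℂ, (∀ s : ℂ, 1 < s.re → L s = χ.series s) ∧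
    (∀ s : ℂ, s ≠ 0 → s ≠ 1 → DifferentiableAt ℂ L s) ∧
    ((∃ I : Ideal (𝓞 K), χ.ψ I ≠ 0 ∧ χ.ψ I ≠ 1) → Differentiable ℂ L) ∧
    ∀ t : ℝ, ‖L (1 / 2 + t * I)‖ ≤
      C * (|(discr K : ℝ)| * Nf K f * Ci χ.k χ.ν t) ^ ε *
        (|(discr K : ℝ)| ^ (1 / 4 : ℝ) * Ci χ.k χ.ν t ^ (1 / 4 : ℝ) *
          Nf K f ^ (1 / 4 - 1 / (16 * (n : ℝ)))) ∧
      ‖L (1 / 2 + t * I)‖ ≤
      C * (|(discr K : ℝ)| * Nf K f * Ci χ.k χ.ν t) ^ ε *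
        (|(discr K : ℝ)| ^ (1 / 4 : ℝ) *
          (Nf K f * Ci χ.k χ.ν t) ^ (1 / 4 - 1 / (64 * (n : ℝ) + 12)))

end Pool.Agent.H23.BG
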