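import Pool.Agent.H47.DW.IN
import Pool.Agent.H23.BG.TargetsF

/-!
# (IN) the integral representation of the weights
-/

set_option autoImplicit false

open NumberField NumberField.InfinitePlace NumberField.Units
  NumberField.Units.dirichletUnitTheorem MeasureTheory Set Filter Complex
open scoped nonZeroDivisors ENNReal

namespace Pool.Agent.H23.BG.IN

open Pool.Agent.H25.HK Pool.Agent.H23.LB Pool.Agent.H23.LC Pool.Agent.H29.DW
open Pool.Agent.H28.RC (Rep ft idl)
open Pool.Agent.H47.DW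

open scoped Classical in
/-- (IN) -/
theorem pf_IN (hTH : T_TH) (hYC : T_YC) : F_IN := by
  intro K _ _ M cp H cc s κ X B v hM hPrm _hcc hκ hκ1 hX hB hWt z τ θ σ hσ
  obtain ⟨g, hgm, hgb, hgv⟩ := hWt σ hσ
  have hH : ∀ v, 1 ≤ H v := fun v => hPrm.one v
  have hω : Pos (om s θ) := Pos_om s θ
  set y := yM K M τ z with hy
  set ω := om s θ with hωd
  have hσ0 : 0 ≤ σ := by
    rcases hσ with h | h
    · rw [h]; exact hκ.le
    · rw [h]; exact zero_le_one
  set l : ℝ → ℂ := fun u => 1 / 2 + σ + u * I with hl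
  -- the finite set
  have hfin : {x : {x : K // x ∈ M} | Wg cp H pb x.1 y ω ≠ 0}.Finite := by
    set D : ℝ := ∑ v : InfinitePlace K, |y v| with hD
    refine (Pool.Agent.H21.GLB.fin_set hTH M hM (2 * Real.exp D)).subset ?_
    intro x hx v
    have h1 := Wg_ne hH (fun v x h => b0_supp' v x h) hx v
    have h2 : ‖wv v x.1 y ω - 1‖ ≤ 1 := by
      have h0 := norm_nonneg (wv v x.1 y ω - 1)
      nlinarith [hH v]
    have h3 : ‖wv v x.1 y ω‖ ≤ 2 := by
      calc ‖wv v x.1 y ω‖ = ‖(wv v x.1 y ω - 1) + 1‖ := by rw [sub_add_cancel]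
        _ ≤ ‖wv v x.1 y ω - 1‖ + ‖(1 : ℂ)‖ := norm_add_le _ _
        _ ≤ 2 := by rw [norm_one]; linarith
    rw [norm_wv v x.1 y hω] at h3
    have h4 : |y v| ≤ D := by
      rw [hD]
      exact Finset.single_le_sum (f := fun v => |y v|) (fun v _ => abs_nonneg _) (Finset.mem_univ v)
    have h5 : Real.exp (y v / 2) * Real.exp D ≥ 1 := by
      rw [← Real.exp_add]
      refine Real.one_le_exp ?_
      have := neg_abs_le (y v)
      linarith [abs_nonneg (y v)]
    have h6 : 0 ≤ v x.1 := apply_nonneg v x.1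
    calc v x.1 = v x.1 * 1 := (mul_one _).symm
      _ ≤ v x.1 * (Real.exp (y v / 2) * Real.exp D) := mul_le_mul_of_nonneg_left h5 h6
      _ = (v x.1 * Real.exp (y v / 2)) * Real.exp D := by ring
      _ ≤ 2 * Real.exp D := mul_le_mul_of_nonneg_right h3 (Real.exp_pos _).le
  have hlWg : ∀ (x : K) (u : ℝ), Wg cp H (pl H (l u)) x y ω = Wg cp H pb x y ω *
      cexp (-(l u) * ((∑ v : InfinitePlace K, (v.mult : ℝ) * Real.log ‖wv v x y ω‖ : ℝ) : ℂ)) :=
    fun x u => Wg_pl hH (l u) x y ω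
  have hzero : Wg cp H pb (0 : K) y ω = 0 := Wg_zero hH fun v x h => b0_supp' v x h
  set S : Finset K := hfin.toFinset.image Subtype.val with hS
  have hSM : ∀ x ∈ S, x ∈ M ∧ x ≠ 0 ∧ Wg cp H pb x y ω ≠ 0 := by
    intro x hx
    rw [hS, Finset.mem_image] at hx
    obtain ⟨x', hx', rfl⟩ := hx
    have h1 : Wg cp H pb x'.1 y ω ≠ 0 := hfin.mem_toFinset.1 hx'
    refine ⟨x'.2, ?_, h1⟩
    intro h
    exact h1 (by rw [h]; exact hzero)
  have hSc : ∀ x ∈ M, x ∉ S → Wg cp H pb x y ω = 0 := by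
    intro x hx hxS
    by_contra h
    exact hxS (Finset.mem_image.2 ⟨⟨x, hx⟩, hfin.mem_toFinset.2 h, rfl⟩)
  -- the two sums are finite sums over S
  have hsum1 : ∑' x : {x : K // x ∈ M ∧ x ≠ 0}, cc x * v (Ideal.absNorm (idl K M x)) *
      Wg cp H pb x y ω = ∑ x ∈ S, cc x * v (Ideal.absNorm (idl K M x)) * Wg cp H pb x y ω := by
    have h1 : ∑ x ∈ S, cc x * v (Ideal.absNorm (idl K M x)) * Wg cp H pb x y ω =
        ∑ x ∈ S.subtype (fun x => x ∈ M ∧ x ≠ 0), cc x * v (Ideal.absNorm (idl K M x)) *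
          Wg cp H pb x y ω := by
      exact (Finset.sum_subtype_of_mem (p := fun x => x ∈ M ∧ x ≠ 0)
        (fun x => cc x * v (Ideal.absNorm (idl K M x)) * Wg cp H pb x y ω)
        (fun x hx => ⟨(hSM x hx).1, (hSM x hx).2.1⟩)).symm
    rw [h1]
    refine tsum_eq_sum fun x hx => ?_
    rw [Finset.mem_subtype] at hx
    rw [hSc x.1 x.2.1 hx, mul_zero]
  have hsum2 : ∀ u : ℝ, ∑' x : {x : K // x ∈ M}, cc x * Wg cp H (pl H (l u)) x y ω =
      ∑ x ∈ S, cc x * Wg cp H (pl H (l u)) x y ω := by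
    intro u
    have h1 : ∑ x ∈ S, cc x * Wg cp H (pl H (l u)) x y ω =
        ∑ x ∈ S.subtype (fun x => x ∈ M), cc x * Wg cp H (pl H (l u)) x y ω := by
      exact (Finset.sum_subtype_of_mem (p := fun x => x ∈ M)
        (fun x => cc x * Wg cp H (pl H (l u)) x y ω) (fun x hx => (hSM x hx).1)).symm
    rw [h1]
    refine tsum_eq_sum fun x hx => ?_
    rw [Finset.mem_subtype] at hx
    rw [hlWg, hSc x.1 x.2 hx, zero_mul, mul_zero]
  -- one term
  have hterm : ∀ x ∈ S, Integrable (fun u : ℝ => g u * cexp (τ * l u) *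
        (cc x * Wg cp H (pl H (l u)) x y ω)) ∧
      cc x * v (Ideal.absNorm (idl K M x)) * Wg cp H pb x y ω =
        ∫ u : ℝ, g u * cexp (τ * l u) * (cc x * Wg cp H (pl H (l u)) x y ω) := by
    intro x hx
    obtain ⟨hxM, hx0, -⟩ := hSM x hx
    obtain ⟨hN, hlog⟩ := log_norm hYC M hM x hxM hx0 τ z hω
    set N : ℝ := (Ideal.absNorm (idl K M x) : ℝ) with hNd
    have hN' : (N : ℂ) ≠ 0 := by exact_mod_cast hN.ne'
    have h1 : ∀ u : ℝ, g u * cexp (τ * l u) * (cc x * Wg cp H (pl H (l u)) x y ω) =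
        (g u * (N : ℂ) ^ (-(l u))) * (cc x * Wg cp H pb x y ω) := by
      intro u
      rw [hlWg, hlog, Complex.cpow_def_of_ne_zero hN', ← Complex.ofReal_log hN.le]
      have h2 : cexp (τ * l u) * cexp (-(l u) * ((Real.log N + τ : ℝ) : ℂ)) =
          cexp ((Real.log N : ℝ) * -(l u)) := by
        rw [← Complex.exp_add]
        congr 1
        push_cast
        ring
      calc g u * cexp (τ * l u) * (cc x * (Wg cp H pb x y ω *
            cexp (-(l u) * ((Real.log N + τ : ℝ) : ℂ)))) =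
          g u * (cexp (τ * l u) * cexp (-(l u) * ((Real.log N + τ : ℝ) : ℂ))) *
            (cc x * Wg cp H pb x y ω) := by ring
        _ = _ := by rw [h2]
    have h3 : Integrable (fun u : ℝ => g u * (N : ℂ) ^ (-(l u))) := by
      have hgauss : Integrable (fun u : ℝ => B * X ^ σ * N ^ (-(1 / 2 + σ)) *
          Real.exp (-(1 / 4) * u ^ 2)) :=
        (integrable_exp_neg_mul_sq (by norm_num : (0 : ℝ) < 1 / 4)).const_mul _
      refine hgauss.mono' ?_ (Filter.Eventually.of_forall fun u => ?_)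
      · refine (hgm.mul ?_).aestronglyMeasurable
        have : Continuous (fun u : ℝ => (N : ℂ) ^ (-(l u))) := by
          refine Continuous.const_cpow ?_ (Or.inl hN')
          rw [hl]
          fun_prop
        exact this.measurable
      · rw [norm_mul, Complex.norm_cpow_eq_rpow_re_of_pos hN]
        have h4 : (-(l u)).re = -(1 / 2 + σ) := by
          rw [hl]
          simp
        rw [h4]
        have h5 := hgb u
        have h6 : Real.exp (-u ^ 2 / 4) = Real.exp (-(1 / 4) * u ^ 2) := by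
          congr 1
          ring
        rw [h6] at h5
        calc ‖g u‖ * N ^ (-(1 / 2 + σ)) ≤
            (B * X ^ σ * Real.exp (-(1 / 4) * u ^ 2)) * N ^ (-(1 / 2 + σ)) :=
              mul_le_mul_of_nonneg_right h5 (Real.rpow_nonneg hN.le _)
          _ = _ := by ring
    constructor
    · have := h3.mul_const (cc x * Wg cp H pb x y ω)
      refine this.congr (Filter.Eventually.of_forall fun u => ?_)
      exact (h1 u).symm
    · rw [integral_congr_ae (Filter.Eventually.of_forall h1), integral_mul_const]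
      rw [show v (Ideal.absNorm (idl K M x)) = ∫ u : ℝ, g u * (N : ℂ) ^ (-(l u)) from hgv N hN]
      ring
  rw [hsum1]
  have hmain : ∑ x ∈ S, cc x * v (Ideal.absNorm (idl K M x)) * Wg cp H pb x y ω =
      ∫ u : ℝ, g u * cexp (τ * l u) * ∑' x : {x : K // x ∈ M}, cc x *
        Wg cp H (pl H (l u)) x y ω := by
    rw [Finset.sum_congr rfl fun x hx => (hterm x hx).2, ← integral_finsetSum _
      fun x hx => (hterm x hx).1]
    refine integral_congr_ae (Filter.Eventually.of_forall fun u => ?_)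
    simp only
    rw [hsum2, Finset.mul_sum]
  rw [hmain, ofReal_norm]
  refine (enorm_integral_le_lintegral_enorm _).trans ?_
  rw [← lintegral_const_mul' _ _ ENNReal.ofReal_ne_top]
  refine lintegral_mono fun u => ?_
  rw [← ofReal_norm, ← ENNReal.ofReal_mul (by positivity)]
  refine ENNReal.ofReal_le_ofReal ?_
  rw [norm_mul, norm_mul]
  have h7 : ‖cexp (τ * l u)‖ = Real.exp (τ * (1 / 2 + σ)) := by
    rw [Complex.norm_exp]
    congr 1
    rw [hl]
    simp
  rw [h7]
  calc ‖g u‖ * Real.exp (τ * (1 / 2 + σ)) *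
        ‖∑' x : {x : K // x ∈ M}, cc x * Wg cp H (pl H (l u)) x y ω‖
      ≤ (B * X ^ σ * Real.exp (-u ^ 2 / 4)) * Real.exp (τ * (1 / 2 + σ)) *
        ‖∑' x : {x : K // x ∈ M}, cc x * Wg cp H (pl H (l u)) x y ω‖ := by
        gcongr
        exact hgb u
    _ = _ := by ring

end Pool.Agent.H23.BG.IN
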