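import Pool.Agent.H79.DW.MS
import Pool.Agent.H23.BG.TargetsF

/-! MS: measurability, bounds, supports. -/

set_option autoImplicit false

open NumberField NumberField.InfinitePlace NumberField.Units
  NumberField.Units.dirichletUnitTheorem MeasureTheory Set Filter Complex
open scoped nonZeroDivisors ENNReal

namespace Pool.Agent.H23.BG.MS

open Pool.Agent.H25.HK Pool.Agent.H23.LB Pool.Agent.H23.LC Pool.Agent.H29.DW
open Pool.Agent.H28.RC (Rep ft idl)
open Pool.Agent.H21.GLB (fin_set norm_idl sum_log log_near)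
open Pool.Agent.H79.DW

theorem pf_MS (hTH : T_TH) (hYC : T_YC) (hFD : T_FD) : F_MS := by
  intro K _ _ M cp H p cc s hM hPrm hB hcc
  classical
  have hH : ∀ v, 1 ≤ H v := fun v => hPrm.one v
  choose B hB using hB
  have hp : ∀ v, ∀ x : ℂ, 1 / 16 < ‖x‖ → p v x = 0 := fun v => (hB v).supp
  have hc : ∀ v, Continuous (p v) := fun v => bmp_cont (hB v)
  have hsup : ∀ (z : logSpace K) (τ : ℝ) (θ : InfinitePlace K → ℝ) (x : K), x ∈ M →
      Wg cp H p x (yM K M τ z) (om s θ) ≠ 0 → x ≠ 0 ∧ τ ≤ Module.finrank ℚ K := by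
    intro z τ θ x hx h
    have h1 : ∀ v, |v x * Real.exp (yM K M τ z v / 2) - 1| ≤ 1 / 16 := by
      intro v
      have h3 := abs_near (Wg_near hH hp h v)
      rwa [norm_wv v _ _ _ (norm_om s θ v)] at h3
    have hx0 : x ≠ 0 := by
      rintro rfl
      obtain ⟨v⟩ : Nonempty (InfinitePlace K) := inferInstance
      have h2 := h1 v
      rw [map_zero, zero_mul, zero_sub, abs_neg, abs_one] at h2
      norm_num at h2
    exact ⟨hx0, supp hYC M hM x hx hx0 τ z h1⟩
  refine ⟨tsum_measurable hTH hYC M hM hc hH hp cc s _ fun x hx => hx,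
    tsum_measurable hTH hYC M hM hc hH hp cc s _ fun x hx => hx.1, hsup, ?_⟩
  intro T
  obtain ⟨B₀, hB₀⟩ := (hFD K).2.1
  set R : ℝ := max B₀ (max |T| (Module.finrank ℚ K)) with hR
  have hf := loc_fin hTH hYC M hM R
  refine ⟨∑ x ∈ hf.toFinset, ∏ v, B v, ?_⟩
  intro z τ θ hz hτ
  have hBn : ∀ v, 0 ≤ B v := fun v => by
    have h1 := (hB v).bound 0 le_rfl 0
    exact (norm_nonneg _).trans h1
  have hbd : ∀ x : K, ‖Wg cp H p x (yM K M τ (zs s z)) (om s θ)‖ ≤ ∏ v, B v := by
    intro x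
    unfold Wg
    rw [norm_prod]
    refine Finset.prod_le_prod (fun v _ => norm_nonneg _) fun v _ => ?_
    unfold tw1
    rw [norm_mul, norm_chp, one_mul]
    have h1 := (hB v).bound 0 le_rfl ((H v : ℂ) * (wv v x (yM K M τ (zs s z)) (om s θ) - 1))
    rwa [norm_iteratedFDeriv_zero] at h1
  have hz0 : ∀ x : {x : K // x ∈ M}, x ∉ hf.toFinset →
      ‖Wg cp H p x (yM K M τ (zs s z)) (om s θ)‖ = 0 := by
    intro x hx
    by_contra hne
    rw [norm_eq_zero] at hne
    apply hx
    rw [Set.Finite.mem_toFinset]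
    have h2 := (hsup _ τ θ x.1 x.2 hne).2
    refine ⟨τ, zs s z, fun w => ?_, ?_, fun v => ?_⟩
    · rw [zs_abs]
      exact (hB₀ z hz w).trans (le_max_left _ _)
    · rw [abs_le]
      constructor
      · have h3 : |T| ≤ R := (le_max_left _ _).trans (le_max_right _ _)
        have h4 := le_abs_self T
        linarith
      · exact h2.trans ((le_max_right _ _).trans (le_max_right _ _))
    · have h3 := abs_near (Wg_near hH hp hne v)
      rw [norm_wv v _ _ _ (norm_om s θ v)] at h3
      have h4 := (abs_le.mp h3).2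
      linarith
  refine ⟨summable_of_ne_finset_zero (s := hf.toFinset) fun x hx => hz0 x hx, ?_⟩
  rw [tsum_eq_sum fun x hx => hz0 x hx]
  exact Finset.sum_le_sum fun x _ => hbd x.1

end Pool.Agent.H23.BG.MS
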