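import Pool.Agent.H23.BG.TargetsL

/-!
# (RS) the resultant and the contents
-/

set_option autoImplicit false

namespace Pool.Agent.H23.BG
theorem pf_RS : L_RS := by
  intro R _ a
  refine ⟨by unfold al be ga; ring, fun I h1 h2 _ => ⟨?_, ?_, ?_, ?_⟩⟩
  · have : 2 * ((a 0 - a 2) * (a 1 - a 2)) = 2 * be a - 2 * a 2 * al a := by unfold al be; ring
    rw [this]; exact sub_mem h2 (I.mul_mem_left _ h1)
  · have : 2 * ((a 0 - a 3) * (a 1 - a 3)) = 2 * be a - 2 * a 3 * al a := by unfold al be; ring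
    rw [this]; exact sub_mem h2 (I.mul_mem_left _ h1)
  · have : 2 * ((a 0 - a 2) * (a 0 - a 3)) = 2 * a 0 * al a - 2 * be a := by unfold al be; ring
    rw [this]; exact sub_mem (I.mul_mem_left _ h1) h2
  · have : 2 * ((a 1 - a 2) * (a 1 - a 3)) = 2 * a 1 * al a - 2 * be a := by unfold al be; ring
    rw [this]; exact sub_mem (I.mul_mem_left _ h1) h2
end Pool.Agent.H23.BG
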