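import Pool.Agent.H23.BG.TargetsL

/-!
# (TR) inequalities for the exponents of four points
-/

set_option autoImplicit false
set_option linter.unusedVariables false

namespace Pool.Agent.H23.BG

private theorem aux1 (a b c d e f : ℕ)
    (h1 : min a b ≤ d) (h2 : min a d ≤ b) (h3 : min b d ≤ a)
    (h4 : min a c ≤ e) (h5 : min a e ≤ c) (h6 : min c e ≤ a)
    (h7 : min b c ≤ f) (h8 : min b f ≤ c) (h9 : min c f ≤ b)
    (h10 : min d e ≤ f) (h11 : min d f ≤ e) (h12 : min e f ≤ d) :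
    3 * (b + c + d + e) ≤ 4 * (a + max b d + max (max c e) f) := by
  rcases le_total a b with h | h <;> rcases le_total c f with h' | h' <;>
    rcases le_total d e with h'' | h'' <;> omega

private theorem aux2 (a b c d e f x : ℕ)
    (h1 : min a b ≤ d) (h2 : min a d ≤ b) (h3 : min b d ≤ a)
    (h4 : min a c ≤ e) (h5 : min a e ≤ c) (h6 : min c e ≤ a)
    (h7 : min b c ≤ f) (h8 : min b f ≤ c) (h9 : min c f ≤ b)
    (h10 : min d e ≤ f) (h11 : min d f ≤ e) (h12 : min e f ≤ d)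
    (k1 : x ≤ b + d) (k2 : x ≤ c + e) (k3 : x ≤ b + c) (k4 : x ≤ d + e) :
    x ≤ a + max b d ∧ x ≤ a + max (max c e) f ∧ x ≤ max b d + max (max c e) f := by
  rcases le_total a b with h | h <;> rcases le_total c f with h' | h' <;>
    rcases le_total d e with h'' | h'' <;> refine ⟨?_, ?_, ?_⟩ <;> omega

theorem pf_TR : L_TR := by
  intro v hs hu
  have e10 := hs 1 0
  have e20 := hs 2 0
  have e21 := hs 2 1
  have e30 := hs 3 0
  have e31 := hs 3 1
  have e32 := hs 3 2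
  have h1 := hu 1 0 2
  have h2 := hu 0 1 2
  have h3 := hu 0 2 1
  have h4 := hu 1 0 3
  have h5 := hu 0 1 3
  have h6 := hu 0 3 1
  have h7 := hu 2 0 3
  have h8 := hu 0 2 3
  have h9 := hu 0 3 2
  have h10 := hu 2 1 3
  have h11 := hu 1 2 3
  have h12 := hu 1 3 2
  rw [e10] at h1 h4
  rw [e20] at h7
  rw [e21] at h3 h10
  rw [e31] at h6
  rw [e32] at h9 h12
  rw [e10, e20, e21, e30, e31, e32]
  refine ⟨?_, fun x k1 k2 k3 k4 => ?_⟩
  · have := aux1 (v 0 1) (v 0 2) (v 0 3) (v 1 2) (v 1 3) (v 2 3) h1 h2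
      (by rw [← e21] at *; omega) h4 h5 (by omega) h7 h8 (by omega) h10 h11 (by omega)
    omega
  · exact aux2 (v 0 1) (v 0 2) (v 0 3) (v 1 2) (v 1 3) (v 2 3) x h1 h2
      (by omega) h4 h5 (by omega) h7 h8 (by omega) h10 h11 (by omega) k1 k2 k3 k4

end Pool.Agent.H23.BG
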