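import Pool.Agent.H61.DW.UP
import Pool.Agent.H23.BG.TargetsF

/-!
# (UP) unfolding
-/

set_option autoImplicit false

open NumberField NumberField.InfinitePlace NumberField.Units
  NumberField.Units.dirichletUnitTheorem MeasureTheory Set Filter Complex
open scoped nonZeroDivisors ENNReal

namespace Pool.Agent.H23.BG.UP

open Pool.Agent.H25.HK Pool.Agent.H23.LB Pool.Agent.H23.LC
open Pool.Agent.H28.RC (Rep ft idl)
open Pool.Agent.H29.DW
open Pool.Agent.H61.DW (Gk Gk_prod rot_p om_meas Wg_meas Wg_le_one WH_eq Gk_meas wt_sum wt_fin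
  sum_cls Fw yMz_meas Fw_meas class_inf)
open Pool.Agent.H35.GLB (ek_norm ek_meas An_fin B0 Rk Rk_meas Rk_fin zl norm_idl yM_zl cpow_norm
  ec_zl_pos int_An yc_cont)

section
open scoped Classical

variable {K : Type} [Field K] [NumberField K]

/-- the bound by the indicator of a region -/
theorem Wg_bd2 (cp : InfinitePlace K → ℂ) (H : InfinitePlace K → ℝ) (hP : ∀ v, 1 ≤ H v) (x : K)
    (hx : x ≠ 0) (y : InfinitePlace K → ℝ) (s : Bool) (θ : InfinitePlace K → ℝ) :
    ‖Wg cp H pb x y (om s θ)‖ₑ ≤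
      if B0 K (1 / 16) (fun v => y v + 2 * Real.log (v x)) then 1 else 0 := by
  by_cases h : Wg cp H pb x y (om s θ) = 0
  · rw [h, enorm_zero]
    exact bot_le
  · have h1 : B0 K (1 / 16) (fun v => y v + 2 * Real.log (v x)) := by
      intro v
      have h2 := Wg_ne (hP) (fun v x hx => (pb_zero K v).supp x hx) h v
      have hv : 0 < v x := by
        rw [InfinitePlace.pos_iff]
        exact hx
      have h3 : ‖wv v x y (om s θ) - 1‖ ≤ 1 / 16 := by
        have h4 := hP v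
        have h5 := norm_nonneg (wv v x y (om s θ) - 1)
        nlinarith
      have h4 : ‖wv v x y (om s θ)‖ = Real.exp ((y v + 2 * Real.log (v x)) / 2) := by
        rw [norm_wv v x y (Pos_om s θ), add_div, Real.exp_add,
          mul_div_cancel_left₀ _ (two_ne_zero), Real.exp_log hv]
        ring
      have h5 := abs_norm_sub_norm_le (wv v x y (om s θ)) 1
      rw [h4, norm_one] at h5
      exact h5.trans h3
    rw [if_pos h1, ← ofReal_norm, ← ENNReal.ofReal_one]
    exact ENNReal.ofReal_le_ofReal (Wg_le_one cp H x y _)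

variable (K)

theorem Gk_bd2 (cp : InfinitePlace K → ℂ) (H : InfinitePlace K → ℝ) (hP : ∀ v, 1 ≤ H v)
    (k : InfinitePlace K → ℤ) (y : InfinitePlace K → ℝ) :
    ‖Gk K (fun v => tw1 (cp v) (H v) (pb v)) k y‖ₑ ≤
      volume (An K) * if B0 K (1 / 16) y then 1 else 0 := by
  unfold Gk
  refine (enorm_integral_le_lintegral_enorm _).trans ?_
  have h1 : ∀ θ : InfinitePlace K → ℝ, ‖ek k θ * ∏ v, tw1 (cp v) (H v) (pb v)
      (wv v (1 : K) y (om true θ))‖ₑ ≤ if B0 K (1 / 16) y then 1 else 0 := by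
    intro θ
    rw [enorm_mul, ← ofReal_norm (ek k θ), ek_norm, ENNReal.ofReal_one, one_mul]
    have h2 := Wg_bd2 cp H hP (1 : K) one_ne_zero y true θ
    simp only [map_one, Real.log_one, mul_zero, add_zero] at h2
    exact h2
  refine (lintegral_mono h1).trans (le_of_eq ?_)
  rw [lintegral_const, Measure.restrict_apply_univ, mul_comm]

theorem Pw_bd2 (hPU : T_PU) (cp : InfinitePlace K → ℂ) (H : InfinitePlace K → ℝ) (hP : ∀ v, 1 ≤ H v)
    (k : InfinitePlace K → ℤ) (ν : InfinitePlace K → ℝ) (t : ℝ) (p : logSpace K × ℝ) :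
    ‖Pool.Agent.H61.DW.Pw K cp H k ν t p‖ₑ ≤ volume (An K) * Rk K (1 / 16) p := by
  unfold Pool.Agent.H61.DW.Pw
  have h1 : ‖ec K ν p.1‖ₑ = 1 := by
    rw [← ofReal_norm, ((hPU K).2.2.2.2.1 ν).2, ENNReal.ofReal_one]
  have h2 : ‖cexp (t * p.2 * I)‖ₑ = 1 := by
    have : (t : ℂ) * p.2 * I = ((t * p.2 : ℝ) : ℂ) * I := by push_cast; ring
    rw [← ofReal_norm, this, Complex.norm_exp_ofReal_mul_I, ENNReal.ofReal_one]
  rw [enorm_mul, enorm_mul, h1, h2, one_mul, one_mul]
  exact Gk_bd2 K cp H hP k _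

theorem Pw_int2 (hPU : T_PU) (cp : InfinitePlace K → ℂ) (H : InfinitePlace K → ℝ) (hP : ∀ v, 1 ≤ H v)
    (k : InfinitePlace K → ℤ) (ν : InfinitePlace K → ℝ) (t : ℝ) :
    Integrable (Pool.Agent.H61.DW.Pw K cp H k ν t) := by
  refine ⟨(Pool.Agent.H61.DW.Pw_meas K hPU cp H k ν t).aestronglyMeasurable, ?_⟩
  refine lt_of_le_of_lt (lintegral_mono (Pw_bd2 K hPU cp H hP k ν t)) ?_
  rw [lintegral_const_mul _ (Rk_meas K _)]
  exact ENNReal.mul_lt_top (An_fin K) (lt_top_iff_ne_top.2 (Rk_fin K _ (by norm_num)))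

variable {K}

/-- (UP) unfolding. -/
theorem pf_UP (hCG : U_CG) (hAG : U_AG) (hPU : T_PU) : F_UP := by
  intro K _ _ f hf χ ι _ M hM cp H t v hP hv
  set β : Ideal (𝓞 K) → ℂ := fun J => χ.ψ J * v (Ideal.absNorm J) *
    (Ideal.absNorm J : ℂ) ^ (-(t * I : ℂ)) with hβ
  set γ : Ideal (𝓞 K) → ℝ≥0∞ := fun J => ‖v (Ideal.absNorm J)‖ₑ * volume (An K) with hγ
  have hψ : ∀ J : Ideal (𝓞 K), ‖χ.ψ J‖ ≤ 1 := by
    intro J
    by_cases h1 : J = ⊥
    · rw [h1, χ.map_bot, norm_zero]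
      exact zero_le_one
    · by_cases h2 : J ⊔ f = ⊤
      · exact (χ.norm_one J h1 h2).le
      · rw [χ.eq_zero J h2, norm_zero]
        exact zero_le_one
  have hβs : Summable (fun J : NZI K => β J.1) := by
    refine Summable.of_norm_bounded (wt_sum K v hv) fun J => ?_
    have hN : 0 < Ideal.absNorm J.1 := by
      rw [Nat.pos_iff_ne_zero, Ne, Ideal.absNorm_eq_zero_iff]
      exact J.2
    have h2 : ‖(Ideal.absNorm J.1 : ℂ) ^ (-(t * I : ℂ))‖ = 1 := by
      rw [Complex.norm_natCast_cpow_of_pos hN]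
      simp
    simp only [hβ]
    rw [norm_mul, norm_mul, h2, mul_one]
    exact mul_le_of_le_one_left (norm_nonneg _) (hψ _)
  have hc : ∀ c : ι, ∫ p in Fd K ×ˢ (univ : Set ℝ) ×ˢ An K,
      ec K χ.ν p.1 * cexp (t * p.2.1 * I) *
      (ek χ.k p.2.2 * ∑' x : {x : K // x ∈ M c ∧ x ≠ 0}, cg χ (M c) x *
        v (Ideal.absNorm (idl K (M c) x)) *
          Wg cp H pb x (yM K (M c) p.2.1 (zs true p.1)) (om true p.2.2)) =
      (torsionOrder K : ℂ) * (∑' J : {J : Ideal (𝓞 K) // Pri K (M c) J}, β J.1) *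
        WH K cp H χ.k χ.ν t := by
    intro c
    have hL := hM.1 c
    obtain ⟨hcg0, hcg1, -⟩ := hCG K f χ (M c) hf hL
    have h2 : ∫ p in Fd K ×ˢ (univ : Set ℝ) ×ˢ An K,
      ec K χ.ν p.1 * cexp (t * p.2.1 * I) *
      (ek χ.k p.2.2 * ∑' x : {x : K // x ∈ M c ∧ x ≠ 0}, cg χ (M c) x *
        v (Ideal.absNorm (idl K (M c) x)) *
          Wg cp H pb x (yM K (M c) p.2.1 (zs true p.1)) (om true p.2.2)) =
        ∫ p in Fd K ×ˢ (univ : Set ℝ) ×ˢ An K, ∑' x : {x : K // x ∈ M c ∧ x ≠ 0},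
          Fw (cg χ (M c)) (M c) cp H χ.k χ.ν t v true x p := by
      refine integral_congr_ae (ae_of_all _ fun p => ?_)
      simp only
      unfold Fw
      rw [tsum_mul_left, tsum_mul_left]
    rw [h2, WH_eq]
    refine class_inf 1 (Or.inl rfl) (M c) hL (Pool.Agent.H61.DW.Pw K cp H χ.k χ.ν t)
      (Pool.Agent.H61.DW.Pw_meas K hPU _ _ _ _ _) (Pw_int2 K hPU cp H hP.one _ _ _) (Rk K (1 / 16)) (Rk_meas K _)
      (Rk_fin K _ (by norm_num)) (Fw (cg χ (M c)) (M c) cp H χ.k χ.ν t v true)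
      (Fw_meas hPU _ _ _ _ _ _ _ _ _) β γ ?_ ?_ ?_
    · simp only [hγ]
      rw [ENNReal.tsum_mul_right]
      exact ENNReal.mul_ne_top (wt_fin K v hv (M c)) (An_fin K).ne
    · intro x hx hx0 z τ
      have h4 := norm_idl K (M c) hL x hx hx0
      have h5 := yM_zl K (M c) hL x hx hx0 τ z
      have h6 := cpow_norm K (idl K (M c) x) h4.1 t τ
      have h7 := ec_zl_pos K hPU χ.ν χ.norm_zero x hx0 z
      have h8 : ∀ θ : InfinitePlace K → ℝ,
          Fw (cg χ (M c)) (M c) cp H χ.k χ.ν t v true x (z, τ, θ) =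
          (ec K χ.ν z * cexp (t * τ * I) * (cg χ (M c) x * v (Ideal.absNorm (idl K (M c) x)))) *
          (ek χ.k θ * ∏ w, tw1 (cp w) (H w) (pb w) (wv w x (yM K (M c) τ z) (om true θ))) := by
        intro θ
        unfold Fw Wg zs
        simp only [if_true]
        ring
      simp only [h8]
      rw [integral_const_mul, rot_p K (fun w => tw1 (cp w) (H w) (pb w)) χ.k _ x hx0, h5]
      unfold Pool.Agent.H61.DW.Pw
      rw [h7, one_smul, hcg0 x hx hx0]
      simp only [hβ]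
      have h9 : (starRingEnd ℂ) (ag χ.k x) * ag χ.k x = 1 := by
        rw [mul_comm, Complex.mul_conj, Complex.normSq_eq_norm_sq, (hAG K χ.k).2.1 x hx0]
        norm_num
      linear_combination (ec K χ.ν z * cexp (t * τ * I) * (starRingEnd ℂ) (ph χ.ν x) *
        χ.ψ (idl K (M c) x) * v (Ideal.absNorm (idl K (M c) x)) *
        Gk K (fun w => tw1 (cp w) (H w) (pb w)) χ.k
          (yc K (τ + Real.log (Ideal.absNorm (idl K (M c) x))) (z + zl K x))) * h9 -
        (χ.ψ (idl K (M c) x) * v (Ideal.absNorm (idl K (M c) x)) * ec K χ.ν z *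
          (starRingEnd ℂ) (ph χ.ν x) *
          Gk K (fun w => tw1 (cp w) (H w) (pb w)) χ.k
          (yc K (τ + Real.log (Ideal.absNorm (idl K (M c) x))) (z + zl K x))) * h6
    · intro x hx hx0 z τ
      have h5 := yM_zl K (M c) hL x hx hx0 τ z
      have h6 : ∀ θ : InfinitePlace K → ℝ,
          ‖Fw (cg χ (M c)) (M c) cp H χ.k χ.ν t v true x (z, τ, θ)‖ₑ ≤
          ‖v (Ideal.absNorm (idl K (M c) x))‖ₑ *
          Rk K (1 / 16) ((1 : ℝ) • z + zl K x,
            τ + Real.log (Ideal.absNorm (idl K (M c) x))) := by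
        intro θ
        unfold Fw
        have e1 : ‖ec K χ.ν z‖ₑ = 1 := by
          rw [← ofReal_norm, ((hPU K).2.2.2.2.1 χ.ν).2, ENNReal.ofReal_one]
        have e2 : ‖cexp (t * τ * I)‖ₑ = 1 := by
          have : (t : ℂ) * τ * I = ((t * τ : ℝ) : ℂ) * I := by push_cast; ring
          rw [← ofReal_norm, this, Complex.norm_exp_ofReal_mul_I, ENNReal.ofReal_one]
        have e3 : ‖ek χ.k θ‖ₑ = 1 := by
          rw [← ofReal_norm, ek_norm, ENNReal.ofReal_one]
        have e4 : ‖cg χ (M c) x‖ₑ ≤ 1 := by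
          rw [← ofReal_norm, ← ENNReal.ofReal_one]
          exact ENNReal.ofReal_le_ofReal (hcg1 x hx)
        have e5 := Wg_bd2 cp H hP.one x hx0 (yM K (M c) τ z) true θ
        have e6 : Rk K (1 / 16) ((1 : ℝ) • z + zl K x,
            τ + Real.log (Ideal.absNorm (idl K (M c) x))) =
            if B0 K (1 / 16) (fun v => yM K (M c) τ z v + 2 * Real.log (v x)) then 1 else 0 := by
          unfold Rk
          rw [h5, one_smul]
        rw [e6]
        simp only [zs, if_true, enorm_mul, e1, e2, e3, one_mul]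
        calc ‖cg χ (M c) x‖ₑ * ‖v (Ideal.absNorm (idl K (M c) x))‖ₑ *
            ‖Wg cp H pb x (yM K (M c) τ z) (om true θ)‖ₑ ≤
            1 * ‖v (Ideal.absNorm (idl K (M c) x))‖ₑ *
            (if B0 K (1 / 16) (fun v => yM K (M c) τ z v + 2 * Real.log (v x)) then 1 else 0) :=
              mul_le_mul' (mul_le_mul' e4 le_rfl) e5
          _ = _ := by rw [one_mul]
      refine (lintegral_mono h6).trans (le_of_eq ?_)
      rw [lintegral_const, Measure.restrict_apply_univ]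
      simp only [hγ]
      ring
  rw [Finset.sum_congr rfl fun c _ => hc c, ← sum_cls K M hM β hβs, Finset.mul_sum]
  refine Finset.sum_congr rfl fun c _ => ?_
  ring

end

end Pool.Agent.H23.BG.UP
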