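import Pool.Agent.H46.DW.WL
import Pool.Agent.H21.DW.ML
import Pool.Agent.H23.BG.TargetsF

/-!
# (WL) the lower bound for the Mellin transform
-/

set_option autoImplicit false

open NumberField NumberField.InfinitePlace NumberField.Units
  NumberField.Units.dirichletUnitTheorem MeasureTheory Set Filter Complex
open scoped nonZeroDivisors ENNReal

namespace Pool.Agent.H23.BG.WL

open Pool.Agent.H25.HK Pool.Agent.H23.LB Pool.Agent.H23.LC Pool.Agent.H29.DW
open Pool.Agent.H21.DW hiding pf_ML re_FF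
open Pool.Agent.H46.DW (lin an_eq_aq mult_eq_dg cpar_eq inner_eq integrand_eq)

/-- the parameters -/
structure P2 (r : Bool) (c : ℂ) (H : ℝ) : Prop where
  one : 1 ≤ H
  le : ‖c‖ ≤ H ^ 2
  real : Rl r c

/-- The real part of the integrand. -/
theorem re_FF2 (r : Bool) (c : ℂ) (H : ℝ) (hP : P2 r c H) (k : ℤ) (t : ℝ)
    (hc : c = if r then (t : ℂ) else ((2 * t : ℝ) : ℂ) + (k : ℂ) * I) (y θ : ℝ) :
    1 / 2 * b0 (H * (((Real.exp (y / 2) : ℝ) : ℂ) * aq r θ - 1)) ≤ (FF r c H k t y θ).re := by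
  set w : ℂ := ((Real.exp (y / 2) : ℝ) : ℂ) * aq r θ with hwd
  have hH := hP.one
  have hH0 : 0 < H := by linarith
  by_cases hw : H * ‖w - 1‖ ≤ 1 / 16
  · have hw1 : ‖w - 1‖ ≤ 1 / 16 := by
      have := norm_nonneg (w - 1)
      nlinarith
    have hph := phase r c k t y θ hc hw1
    set z : ℂ := w - 1 with hz
    have hlog : ‖Complex.log w - (z - z ^ 2 / 2)‖ ≤ ‖z‖ ^ 3 := by
      have h1 := Complex.norm_log_sub_logTaylor_le 2 (z := z) (by linarith)
      have h2 : Complex.logTaylor (2 + 1) z = z - z ^ 2 / 2 := by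
        simp [Complex.logTaylor, Finset.sum_range_succ]
        ring
      have h3 : 1 + z = w := by rw [hz]; ring
      rw [h2, h3] at h1
      refine h1.trans ?_
      have h4 : (1 - ‖z‖)⁻¹ ≤ 3 := by
        rw [inv_le_comm₀ (by linarith) (by norm_num)]
        linarith
      have h5 : 0 ≤ ‖z‖ ^ 3 := by positivity
      norm_num
      nlinarith
    have hcn : ‖c‖ ≤ H ^ 3 := hP.le.trans (pow_le_pow_right₀ hH (by norm_num))
    have hφ : |(c * (Complex.log w - (z - z ^ 2 / 2))).re| ≤ 1 := by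
      refine (Complex.abs_re_le_norm _).trans ?_
      rw [norm_mul]
      calc ‖c‖ * ‖Complex.log w - (z - z ^ 2 / 2)‖ ≤ H ^ 3 * ‖z‖ ^ 3 :=
            mul_le_mul hcn hlog (norm_nonneg _) (by positivity)
        _ = (H * ‖z‖) ^ 3 := by ring
        _ ≤ (1 / 16) ^ 3 := pow_le_pow_left₀ (by positivity) hw 3
        _ ≤ 1 := by norm_num
    rw [← hwd] at hph
    have hF : FF r c H k t y θ =
        cexp (((c * (Complex.log w - (z - z ^ 2 / 2))).re : ℝ) * I) * (b0 (H * z) : ℂ) := by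
      have h1 : FF r c H k t y θ = aq r θ ^ (-k) * cexp ((dg r * t * y / 2 : ℝ) * I) *
          (cexp (-((c * (z - z ^ 2 / 2)).re : ℝ) * I) * (b0 (H * z) : ℂ)) := rfl
      have h2 : (c * (Complex.log w - (z - z ^ 2 / 2))).re =
          (c * Complex.log w).re - (c * (z - z ^ 2 / 2)).re := by
        rw [mul_sub, Complex.sub_re]
      rw [h1, hph, ← mul_assoc, ← Complex.exp_add, h2]
      generalize (c * Complex.log w).re = u1
      generalize (c * (z - z ^ 2 / 2)).re = u2
      congr 2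
      push_cast
      ring
    rw [hF, Complex.re_mul_ofReal, Complex.exp_ofReal_mul_I_re]
    have hcos : 1 / 2 ≤ Real.cos ((c * (Complex.log w - (z - z ^ 2 / 2))).re) := by
      have h1 := Real.one_sub_sq_div_two_le_cos (x := (c * (Complex.log w - (z - z ^ 2 / 2))).re)
      have h2 : ((c * (Complex.log w - (z - z ^ 2 / 2))).re) ^ 2 ≤ 1 := by
        rw [← sq_abs]
        exact pow_le_one₀ (abs_nonneg _) hφ
      linarith
    exact mul_le_mul_of_nonneg_right hcos b0.nonneg
  · push Not at hw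
    have h0 : b0 (H * (w - 1)) = 0 := by
      apply b0_zero
      rw [norm_mul, Complex.norm_real, Real.norm_of_nonneg hH0.le]
      exact hw.le
    have hF : FF r c H k t y θ = 0 := by
      have h1 : FF r c H k t y θ = aq r θ ^ (-k) * cexp ((dg r * t * y / 2 : ℝ) * I) *
          (chp c w * (b0 (H * (w - 1)) : ℂ)) := rfl
      rw [h1, h0]
      simp
    rw [h0, hF]
    simp

/-- ML: the local Mellin transform. -/
theorem pf_ML : ∃ c₀ : ℝ, 0 < c₀ ∧ ∀ (r : Bool) (c : ℂ) (H : ℝ), P2 r c H → ∀ (k : ℤ) (t : ℝ),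
    (c = if r then (t : ℂ) else ((2 * t : ℝ) : ℂ) + (k : ℂ) * I) →
    Integrable (fun y : ℝ => ∫ θ in Icc (0 : ℝ) (2 * Real.pi), aq r θ ^ (-k) *
      cexp ((dg r * t * y / 2 : ℝ) * I) *
        tw1 c H (fun x => (b0 x : ℂ)) (((Real.exp (y / 2) : ℝ) : ℂ) * aq r θ)) ∧
    c₀ * H ^ (-(dg r : ℝ)) ≤ ‖∫ y : ℝ, ∫ θ in Icc (0 : ℝ) (2 * Real.pi), aq r θ ^ (-k) *
      cexp ((dg r * t * y / 2 : ℝ) * I) *
        tw1 c H (fun x => (b0 x : ℂ)) (((Real.exp (y / 2) : ℝ) : ℂ) * aq r θ)‖ := by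
  have hpi := Real.pi_pos
  have hpi3 := Real.pi_gt_three
  refine ⟨1 / 8192, by norm_num, ?_⟩
  intro r c H hP k t hc
  have hH := hP.one
  have hH0 : 0 < H := by linarith
  set μ : Measure ℝ := volume.restrict (Icc (0 : ℝ) (2 * Real.pi)) with hμ
  have hmeas := measurable_FF r c H k t
  have hμf : IsFiniteMeasure μ := by
    rw [hμ]; infer_instance
  have hin : ∀ y : ℝ, Integrable (fun θ => FF r c H k t y θ) μ := by
    intro y
    refine Integrable.mono' (integrable_const (1 : ℝ)) ?_ (Eventually.of_forall fun θ => norm_FF_le r c H k t y θ)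
    exact (hmeas.comp (measurable_const.prodMk measurable_id)).aestronglyMeasurable
  have hGm : StronglyMeasurable (fun y : ℝ => ∫ θ, FF r c H k t y θ ∂μ) :=
    hmeas.stronglyMeasurable.integral_prod_right
  have hGz : ∀ y : ℝ, y ∉ Icc (-1 : ℝ) 1 → ∫ θ, FF r c H k t y θ ∂μ = 0 := by
    intro y hy
    have : ∀ θ, FF r c H k t y θ = 0 := by
      intro θ
      have h0 : b0 (H * (((Real.exp (y / 2) : ℝ) : ℂ) * aq r θ - 1)) = 0 := by
        apply b0_zero
        rw [norm_mul, Complex.norm_real, Real.norm_of_nonneg hH0.le]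
        have h1 := abs_norm_sub_norm_le (((Real.exp (y / 2) : ℝ) : ℂ) * aq r θ) 1
        rw [norm_mul, norm_aq, mul_one, Complex.norm_real,
          Real.norm_of_nonneg (Real.exp_pos _).le, norm_one] at h1
        have h2 : (1 : ℝ) / 16 ≤ |Real.exp (y / 2) - 1| := by
          rw [mem_Icc, not_and_or] at hy
          rcases hy with hy | hy
          · push Not at hy
            have h3 : Real.exp (y / 2) ≤ Real.exp (-(1 / 2)) := Real.exp_le_exp.mpr (by linarith)
            have h5 : Real.exp (-(1 / 2 : ℝ)) * Real.exp (-(1 / 2 : ℝ)) = Real.exp (-1) := by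
              rw [← Real.exp_add]; norm_num
            have h6 := Real.exp_neg_one_lt_d9
            have h7 := Real.exp_pos (-(1 / 2 : ℝ))
            rw [abs_sub_comm]
            refine le_trans ?_ (le_abs_self _)
            nlinarith
          · push Not at hy
            have h3 : y / 2 + 1 ≤ Real.exp (y / 2) := Real.add_one_le_exp _
            refine le_trans ?_ (le_abs_self _)
            linarith
        have h4 := h2.trans h1
        nlinarith [norm_nonneg (((Real.exp (y / 2) : ℝ) : ℂ) * aq r θ - 1)]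
      have h1 : FF r c H k t y θ = aq r θ ^ (-k) * cexp ((dg r * t * y / 2 : ℝ) * I) *
          (chp c (((Real.exp (y / 2) : ℝ) : ℂ) * aq r θ) *
            (b0 (H * (((Real.exp (y / 2) : ℝ) : ℂ) * aq r θ - 1)) : ℂ)) := rfl
      rw [h1, h0]
      simp
    simp [this]
  have hGi : Integrable (fun y : ℝ => ∫ θ, FF r c H k t y θ ∂μ) := by
    have h1 : IntegrableOn (fun y : ℝ => ∫ θ, FF r c H k t y θ ∂μ) (Icc (-1 : ℝ) 1) := by
      refine Measure.integrableOn_of_bounded (M := μ.real univ) (by simp) hGm.aestronglyMeasurable ?_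
      refine Eventually.of_forall fun y => ?_
      refine (norm_integral_le_integral_norm _).trans ?_
      have : ∫ θ, ‖FF r c H k t y θ‖ ∂μ ≤ ∫ _θ, (1 : ℝ) ∂μ :=
        integral_mono (hin y).norm (integrable_const _) fun θ => norm_FF_le r c H k t y θ
      refine this.trans ?_
      simp
    rw [← integrable_indicator_iff measurableSet_Icc] at h1
    refine h1.congr (Eventually.of_forall fun y => ?_)
    by_cases hy : y ∈ Icc (-1 : ℝ) 1
    · rw [Set.indicator_of_mem hy]
    · rw [Set.indicator_of_notMem hy]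
      exact (hGz y hy).symm
  refine ⟨hGi, ?_⟩
  change 1 / 8192 * H ^ (-(dg r : ℝ)) ≤ ‖∫ y : ℝ, ∫ θ, FF r c H k t y θ ∂μ‖
  -- real parts
  have hreI : ∀ y : ℝ, (∫ θ, FF r c H k t y θ ∂μ).re = ∫ θ, (FF r c H k t y θ).re ∂μ := by
    intro y
    exact (Complex.reCLM.integral_comp_comm (hin y)).symm
  have hre : (∫ y : ℝ, ∫ θ, FF r c H k t y θ ∂μ).re = ∫ y : ℝ, ∫ θ, (FF r c H k t y θ).re ∂μ := by
    have := (Complex.reCLM.integral_comp_comm hGi).symm
    refine this.trans ?_
    congr 1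
    funext y
    exact hreI y
  have hFnn : ∀ y θ, 0 ≤ (FF r c H k t y θ).re := fun y θ =>
    le_trans (mul_nonneg (by norm_num) b0.nonneg) (re_FF2 r c H hP k t hc y θ)
  have hRi : Integrable (fun y : ℝ => ∫ θ, (FF r c H k t y θ).re ∂μ) := by
    have := hGi.re
    refine this.congr (Eventually.of_forall fun y => ?_)
    exact hreI y
  -- the small box
  set κ : ℝ := 1 / 128 * H ^ (1 - (dg r : ℝ)) with hκ
  have hκ0 : 0 < κ := by
    have := Real.rpow_pos_of_pos hH0 (1 - (dg r : ℝ))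
    positivity
  have hκ1 : κ ≤ 1 / 128 := by
    have : H ^ (1 - (dg r : ℝ)) ≤ 1 := by
      apply Real.rpow_le_one_of_one_le_of_nonpos hH
      cases r <;> simp [dg]
    linarith
  set η : ℝ := 1 / (64 * H) with hη
  have hη0 : 0 < η := by positivity
  have hbox : ∀ y ∈ Icc (-η) η, ∀ θ ∈ Icc 0 κ, 1 / 2 ≤ (FF r c H k t y θ).re := by
    intro y hy θ hθ
    refine le_trans ?_ (re_FF2 r c H hP k t hc y θ)
    rw [b0_one]
    · norm_num
    rw [norm_mul, Complex.norm_real, Real.norm_of_nonneg hH0.le]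
    have hη2 : H * η = 1 / 64 := by rw [hη]; field_simp
    have hη1 : η ≤ 1 / 64 := by nlinarith
    have hyη : |y| ≤ η := abs_le.mpr hy
    cases r
    · have hκH : H * κ = 1 / 128 := by
        have h1 : (1 - (dg false : ℝ)) = -1 := by simp [dg]; norm_num
        rw [hκ, h1, Real.rpow_neg_one]
        field_simp
      have e : ((Real.exp (y / 2) : ℝ) : ℂ) * aq false θ = cexp ((y / 2 : ℝ) + θ * I) := by
        rw [Complex.exp_add, Complex.ofReal_exp]
        simp [aq]
      have hzn : ‖(((y / 2 : ℝ) : ℂ) + θ * I)‖ ≤ |y| / 2 + θ := by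
        refine (norm_add_le _ _).trans ?_
        rw [Complex.norm_real, norm_mul, Complex.norm_real, Complex.norm_I, mul_one,
          Real.norm_eq_abs, Real.norm_of_nonneg hθ.1, abs_div, abs_two]
      have h1 := Complex.norm_exp_sub_one_le (x := ((y / 2 : ℝ) : ℂ) + θ * I) (by
        refine hzn.trans ?_
        have := hθ.2
        linarith)
      rw [e]
      have h2 := mul_le_mul_of_nonneg_left (h1.trans (mul_le_mul_of_nonneg_left hzn (by norm_num : (0:ℝ) ≤ 2))) hH0.le
      refine h2.trans ?_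
      have h3 : H * |y| ≤ 1 / 64 := by rw [← hη2]; exact mul_le_mul_of_nonneg_left hyη hH0.le
      have h4 : H * θ ≤ 1 / 128 := by rw [← hκH]; exact mul_le_mul_of_nonneg_left hθ.2 hH0.le
      nlinarith
    · have e : ((Real.exp (y / 2) : ℝ) : ℂ) * aq true θ = cexp ((y / 2 : ℝ)) := by
        have h1 : θ < Real.pi := by
          have := hθ.2
          linarith
        rw [Complex.ofReal_exp]
        simp [aq, h1]
      have hzn : ‖((y / 2 : ℝ) : ℂ)‖ = |y| / 2 := by
        rw [Complex.norm_real, Real.norm_eq_abs, abs_div, abs_two]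
      have h1 := Complex.norm_exp_sub_one_le (x := ((y / 2 : ℝ) : ℂ)) (by
        rw [hzn]; linarith)
      rw [e]
      rw [hzn] at h1
      have h3 : H * |y| ≤ 1 / 64 := by rw [← hη2]; exact mul_le_mul_of_nonneg_left hyη hH0.le
      have h2 := mul_le_mul_of_nonneg_left h1 hH0.le
      refine h2.trans ?_
      nlinarith
  have hinner : ∀ y ∈ Icc (-η) η, κ / 2 ≤ ∫ θ, (FF r c H k t y θ).re ∂μ := by
    intro y hy
    have h1 : ∫ θ in Icc 0 κ, (FF r c H k t y θ).re ≤ ∫ θ, (FF r c H k t y θ).re ∂μ := by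
      rw [hμ]
      refine setIntegral_mono_set (hin y).re (Eventually.of_forall fun θ => hFnn y θ) ?_
      exact (Icc_subset_Icc_right (by linarith)).eventuallyLE
    have h2 : ∫ _θ in Icc 0 κ, (1 / 2 : ℝ) ≤ ∫ θ in Icc 0 κ, (FF r c H k t y θ).re := by
      refine setIntegral_mono_on (by simp) ?_ measurableSet_Icc fun θ hθ => hbox y hy θ hθ
      exact (hin y).re.mono_measure (by
        rw [hμ]; exact Measure.restrict_mono (Icc_subset_Icc_right (by linarith)) le_rfl)
    refine le_trans (le_of_eq ?_) (h2.trans h1)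
    rw [setIntegral_const]
    simp [Real.volume_real_Icc, hκ0.le]
    ring
  have hout : ∫ _y in Icc (-η) η, (κ / 2 : ℝ) ≤ ∫ y : ℝ, ∫ θ, (FF r c H k t y θ).re ∂μ := by
    have h1 : ∫ y in Icc (-η) η, ∫ θ, (FF r c H k t y θ).re ∂μ ≤
        ∫ y : ℝ, ∫ θ, (FF r c H k t y θ).re ∂μ :=
      setIntegral_le_integral hRi (Eventually.of_forall fun y => integral_nonneg fun θ => hFnn y θ)
    refine le_trans ?_ h1
    exact setIntegral_mono_on (by simp) hRi.integrableOn measurableSet_Icc hinner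
  have hfin : 1 / 8192 * H ^ (-(dg r : ℝ)) ≤ ∫ _y in Icc (-η) η, (κ / 2 : ℝ) := by
    rw [setIntegral_const, Real.volume_real_Icc, hκ, hη]
    have h2 : max (1 / (64 * H) - -(1 / (64 * H))) 0 = 1 / (32 * H) := by
      rw [max_eq_left (by rw [hη] at hη0; linarith)]
      field_simp
      norm_num
    rw [h2]
    have h3 : H ^ (1 - (dg r : ℝ)) = H * H ^ (-(dg r : ℝ)) := by
      rw [sub_eq_add_neg, Real.rpow_add hH0, Real.rpow_one]
    rw [h3, smul_eq_mul]
    refine le_of_eq ?_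
    field_simp
    norm_num
  calc 1 / 8192 * H ^ (-(dg r : ℝ)) ≤ ∫ _y in Icc (-η) η, (κ / 2 : ℝ) := hfin
    _ ≤ ∫ y : ℝ, ∫ θ, (FF r c H k t y θ).re ∂μ := hout
    _ = (∫ y : ℝ, ∫ θ, FF r c H k t y θ ∂μ).re := hre.symm
    _ ≤ _ := Complex.re_le_norm _

section

variable {K : Type} [Field K] [NumberField K]

omit [NumberField K] in
lemma par2 (k : InfinitePlace K → ℤ) (ν : InfinitePlace K → ℝ) (t : ℝ) (v : InfinitePlace K) :
    P2 (rv v) (cpar k ν t v) (Hp2 (cpar k ν t) v) := by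
  classical
  have h0 : (0 : ℝ) ≤ max 1 ‖cpar k ν t v‖ := zero_le_one.trans (le_max_left _ _)
  refine ⟨?_, ?_, ?_⟩
  · unfold Hp2
    exact Real.one_le_rpow (le_max_left _ _) (by norm_num)
  · unfold Hp2
    rw [← Real.rpow_natCast, ← Real.rpow_mul h0]
    norm_num
  · intro hr
    have h1 : v.IsReal := by
      unfold rv at hr
      exact of_decide_eq_true hr
    unfold cpar
    rw [if_pos h1]
    exact Complex.ofReal_im _

end

/-- (WL) the lower bound for the Mellin transform. -/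
theorem pf_WL (hPU : T_PU) : F_WL := by
  classical
  intro n hn
  obtain ⟨c₀, hc₀, hml⟩ := pf_ML
  refine ⟨(2 ^ n)⁻¹ * (min c₀ 1) ^ n, by positivity, ?_⟩
  intro K _ _ hK k ν t hν
  have hml' : ∀ v : InfinitePlace K,
      Integrable (fun y : ℝ => cexp ((dg (rv v) * (t - ν v) * y / 2 : ℝ) * I) *
        ∫ θ in Icc (0 : ℝ) (2 * Real.pi),
          lin (cpar k ν t v) (Hp2 (cpar k ν t) v) (rv v) (k v) y θ) ∧
      c₀ * ((Hp2 (cpar k ν t) v) ^ v.mult)⁻¹ ≤
        ‖∫ y : ℝ, cexp ((dg (rv v) * (t - ν v) * y / 2 : ℝ) * I) *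
        ∫ θ in Icc (0 : ℝ) (2 * Real.pi),
          lin (cpar k ν t v) (Hp2 (cpar k ν t) v) (rv v) (k v) y θ‖ := by
    intro v
    have h1 := hml (rv v) (cpar k ν t v) (Hp2 (cpar k ν t) v) (par2 k ν t v) (k v)
      (t - ν v) (cpar_eq k ν t v)
    have h2 : ∀ y : ℝ, (∫ θ in Icc (0 : ℝ) (2 * Real.pi), aq (rv v) θ ^ (-k v) *
        cexp ((dg (rv v) * (t - ν v) * y / 2 : ℝ) * I) *
          tw1 (cpar k ν t v) (Hp2 (cpar k ν t) v) (fun x => (b0 x : ℂ))
            (((Real.exp (y / 2) : ℝ) : ℂ) * aq (rv v) θ)) =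
        cexp ((dg (rv v) * (t - ν v) * y / 2 : ℝ) * I) *
        ∫ θ in Icc (0 : ℝ) (2 * Real.pi),
          lin (cpar k ν t v) (Hp2 (cpar k ν t) v) (rv v) (k v) y θ := by
      intro y
      rw [← integral_const_mul]
      congr 1
      funext θ
      unfold lin
      ring
    simp only [h2] at h1
    refine ⟨h1.1, le_trans (le_of_eq ?_) h1.2⟩
    have h3 : (0 : ℝ) ≤ Hp2 (cpar k ν t) v := zero_le_one.trans (par2 k ν t v).one
    rw [Real.rpow_neg h3, Real.rpow_natCast, ← mult_eq_dg]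
  have hg := (Integrable.fintype_prod_dep (μ := fun _ : InfinitePlace K => (volume : Measure ℝ))
    fun v => (hml' v).1)
  rw [← volume_pi] at hg
  have hja := (Pool.Agent.H41.HK.ja K _ hg).2
  have hWH : WH K (cpar k ν t) (Hp2 (cpar k ν t)) k ν t =
      ∫ p : ℝ × logSpace K, ∏ v, (cexp ((dg (rv v) * (t - ν v) * yc K p.1 p.2 v / 2 : ℝ) * I) *
        ∫ θ in Icc (0 : ℝ) (2 * Real.pi),
          lin (cpar k ν t v) (Hp2 (cpar k ν t) v) (rv v) (k v) (yc K p.1 p.2 v) θ) := by
    unfold WH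
    simp only [integrand_eq hPU k ν t hν]
    exact (integral_prod_swap (μ := (volume : Measure (logSpace K))) (ν := (volume : Measure ℝ))
      (fun u : logSpace K × ℝ => ∏ v, (cexp ((dg (rv v) * (t - ν v) * yc K u.2 u.1 v / 2 : ℝ) * I) *
        ∫ θ in Icc (0 : ℝ) (2 * Real.pi),
          lin (cpar k ν t v) (Hp2 (cpar k ν t) v) (rv v) (k v) (yc K u.2 u.1 v) θ))).symm
  have hpr := integral_fintype_prod_volume_eq_prod
    (fun (v : InfinitePlace K) (y : ℝ) => cexp ((dg (rv v) * (t - ν v) * y / 2 : ℝ) * I) *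
        ∫ θ in Icc (0 : ℝ) (2 * Real.pi),
          lin (cpar k ν t v) (Hp2 (cpar k ν t) v) (rv v) (k v) y θ)
  rw [hWH, hja, hpr, norm_mul, norm_prod, norm_inv, norm_pow]
  have hcard : (Finset.univ : Finset (InfinitePlace K)).card ≤ n := by
    rw [← hK, ← sum_mult_eq (K := K), Finset.card_eq_sum_ones]
    exact Finset.sum_le_sum fun v _ => Nat.succ_le_of_lt mult_pos
  have hr1 : nrRealPlaces K ≤ n := by
    refine le_trans ?_ hcard
    unfold nrRealPlaces
    exact Fintype.card_subtype_le _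
  have h2 : ‖(2 : ℂ)‖ = 2 := by simp
  rw [h2]
  have h3 : ((2 : ℝ) ^ n)⁻¹ ≤ (2 ^ nrRealPlaces K)⁻¹ := by
    apply inv_anti₀ (by positivity)
    exact pow_le_pow_right₀ (by norm_num) hr1
  have hmin : (0 : ℝ) < min c₀ 1 := lt_min hc₀ one_pos
  have h4 : (min c₀ 1) ^ n * (HH (Hp2 (cpar k ν t)))⁻¹ ≤
      ∏ v : InfinitePlace K, (c₀ * ((Hp2 (cpar k ν t) v) ^ v.mult)⁻¹) := by
    rw [Finset.prod_mul_distrib, Finset.prod_const, Finset.prod_inv_distrib]
    have h5 : 0 ≤ (HH (Hp2 (cpar k ν t)))⁻¹ := by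
      apply inv_nonneg.2
      apply Finset.prod_nonneg
      intro v _
      exact pow_nonneg (zero_le_one.trans (par2 k ν t v).one) _
    refine mul_le_mul_of_nonneg_right ?_ h5
    calc (min c₀ 1) ^ n ≤ (min c₀ 1) ^ (Finset.univ : Finset (InfinitePlace K)).card :=
          pow_le_pow_of_le_one hmin.le (min_le_right _ _) hcard
      _ ≤ c₀ ^ (Finset.univ : Finset (InfinitePlace K)).card :=
          pow_le_pow_left₀ hmin.le (min_le_left _ _) _
  have h6 : ∏ v : InfinitePlace K, (c₀ * ((Hp2 (cpar k ν t) v) ^ v.mult)⁻¹) ≤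
      ∏ v : InfinitePlace K, ‖∫ y : ℝ, cexp ((dg (rv v) * (t - ν v) * y / 2 : ℝ) * I) *
        ∫ θ in Icc (0 : ℝ) (2 * Real.pi),
          lin (cpar k ν t v) (Hp2 (cpar k ν t) v) (rv v) (k v) y θ‖ := by
    refine Finset.prod_le_prod (fun v _ => ?_) fun v _ => (hml' v).2
    exact mul_nonneg hc₀.le (inv_nonneg.2
      (pow_nonneg (zero_le_one.trans (par2 k ν t v).one) _))
  have h7 := h4.trans h6
  rw [mul_assoc]
  refine mul_le_mul h3 h7 ?_ (by positivity)
  exact mul_nonneg (by positivity) (inv_nonneg.2 (Finset.prod_nonneg fun v _ =>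
    pow_nonneg (zero_le_one.trans (par2 k ν t v).one) _))

end Pool.Agent.H23.BG.WL
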