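import Pool.Agent.H23.BG.DefsA

/-!
# The bound of Burgess for all primitive Hecke characters: targets, part W

The bound of Weil for the sums `∑_y χ((y + a_0)(y + a_1)) conj χ((y + a_2)(y + a_3))`.
-/

set_option autoImplicit false

open Polynomial

namespace Pool.Agent.H23.BG

/-- (HD) Hasse derivatives of `f ^ N * k`. -/
def W_HD : Prop :=
  ∀ (F : Type) [Field F] (f : F[X]), f ≠ 0 → ∀ N l : ℕ, l ≤ N →
    ∃ Φ : F[X] →ₗ[F] F[X], (∀ k : F[X], hasseDeriv l (f ^ N * k) = f ^ (N - l) * Φ k) ∧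
      ∀ (k : F[X]) (D : ℕ), k.natDegree ≤ D →
        (Φ k).natDegree ≤ D + l * (f.natDegree - 1)

/-- (NV) the auxiliary polynomial is not zero. -/
def W_NV : Prop :=
  ∀ (F : Type) [Field F] (f : F[X]) (d c K : ℕ), 1 ≤ d → 1 ≤ f.natDegree →
    Nat.Coprime f.natDegree d → ∀ k : Fin d → Fin K → F[X],
    (∀ i j, (k i j).natDegree + f.natDegree < c) →
    ∑ i : Fin d, ∑ j : Fin K, k i j * (f ^ c) ^ (i : ℕ) * X ^ ((j : ℕ) * (d * c + 1)) = 0 → ∀ i j, k i j = 0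

/-- (EX) the auxiliary polynomial exists. -/
def W_EX : Prop :=
  ∀ (F : Type) [Field F] (m d c K M : ℕ) (ζ : F) (Φ : ℕ → Fin d → (F[X] →ₗ[F] F[X])),
    (∀ (l : ℕ) (i : Fin d) (k : F[X]) (D : ℕ), k.natDegree ≤ D → (Φ l i k).natDegree ≤ D + l * (m - 1)) →
    m < c → M * (c + K) + M ^ 2 * m < d * K * (c - m) →
    ∃ k : Fin d → Fin K → F[X], (∃ i j, k i j ≠ 0) ∧ (∀ i j, (k i j).natDegree + m < c) ∧
      ∀ l < M, ∑ i : Fin d, ∑ j : Fin K, C (ζ ^ (i : ℕ)) * X ^ (j : ℕ) * Φ l i (k i j) = 0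

/-- (VZ) the auxiliary polynomial vanishes to high order. -/
def W_VZ : Prop :=
  ∀ (F : Type) [Field F] [Fintype F] (f : F[X]) (d c K M : ℕ) (ζ : F), f ≠ 0 →
    Fintype.card F = d * c + 1 → M ≤ Fintype.card F → ∀ (Φ : ℕ → Fin d → (F[X] →ₗ[F] F[X])),
    (∀ (l : ℕ) (i : Fin d), l ≤ M → ∀ k : F[X],
      hasseDeriv l (f ^ (M + c * (i : ℕ)) * k) = f ^ (M + c * (i : ℕ) - l) * Φ l i k) →
    ∀ k : Fin d → Fin K → F[X],
    (∀ l < M, ∑ i : Fin d, ∑ j : Fin K, C (ζ ^ (i : ℕ)) * X ^ (j : ℕ) * Φ l i (k i j) = 0) →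
    ∀ x : F, f.eval x ^ c = ζ → (X - C x) ^ M ∣
      f ^ M * ∑ i : Fin d, ∑ j : Fin K, k i j * (f ^ c) ^ (i : ℕ) * X ^ ((j : ℕ) * (d * c + 1))

/-- (ST) the upper bound of Stepanov and Schmidt. -/
def W_ST : Prop :=
  ∀ d m : ℕ, 2 ≤ d → 1 ≤ m → Nat.Coprime m d → ∃ C : ℝ, 0 ≤ C ∧ ∀ (F : Type) [Field F]
    [Fintype F] [DecidableEq F] (f : F[X]), f.natDegree = m → ∀ c : ℕ,
    Fintype.card F = d * c + 1 → ∀ ζ : F,
    ((Finset.univ.filter fun x : F => f.eval x ^ c = ζ).card : ℝ) ≤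
      (Fintype.card F : ℝ) / d + C * Real.sqrt (Fintype.card F)

/-- (SC) character sums, with a constant depending on the order. -/
def W_SC : Prop :=
  ∀ d m : ℕ, 2 ≤ d → 1 ≤ m → Nat.Coprime m d → ∃ C : ℝ, 0 ≤ C ∧ ∀ (F : Type) [Field F]
    [Fintype F] (χ : MulChar F ℂ), orderOf χ = d → ∀ f : F[X], f.natDegree = m →
    ‖∑ x : F, χ (f.eval x)‖ ≤ C * Real.sqrt (Fintype.card F)

/-- (NE) extensions of finite fields and the composition of a character with the norm. -/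
def W_NE : Prop :=
  ∀ (F : Type) [Field F] [Fintype F] (k : ℕ), 1 ≤ k →
    ∃ (E : Type) (_ : Field E) (_ : Fintype E) (_ : Algebra F E), Module.finrank F E = k ∧
      ∀ χ : MulChar F ℂ, ∃ χ' : MulChar E ℂ, orderOf χ' = orderOf χ ∧
        ∀ x : E, χ' x = χ (Algebra.norm F x)

/-- (EP) the logarithmic derivative of the Euler product. -/
def W_EP : Prop :=
  ∀ (F : Type) [Field F] [Fintype F] (Xf : F[X] → ℂ), Xf 1 = 1 →
    (∀ g h : F[X], g.Monic → h.Monic → Xf (g * h) = Xf g * Xf h) → ∀ n : ℕ, 1 ≤ n →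
    (n : ℂ) * am F Xf n = ∑ k ∈ Finset.Icc 1 n, sm F Xf k * am F Xf (n - k)

/-- (EY) the elements of an extension and the irreducible polynomials. -/
def W_EY : Prop :=
  ∀ (F : Type) [Field F] [Fintype F] (E : Type) [Field E] [Fintype E] [Algebra F E]
    (Xf : F[X] → ℂ), sm F Xf (Module.finrank F E) =
      ∑ y : E, Xf (minpoly F y) ^ (Module.finrank F E / (minpoly F y).natDegree)

/-- (LX) the function `lx`. -/
def W_LX : Prop :=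
  ∀ (F : Type) [Field F] [Fintype F] (χ : MulChar F ℂ) (b₁ b₂ b₃ : F), b₁ ≠ 0 → b₂ ≠ 0 →
    b₃ ≠ 0 →
    (lx χ b₁ b₂ b₃ 1 = 1 ∧ ∀ g h : F[X], g.Monic → h.Monic →
      lx χ b₁ b₂ b₃ (g * h) = lx χ b₁ b₂ b₃ g * lx χ b₁ b₂ b₃ h) ∧
    ∀ (E : Type) [Field E] [Fintype E] [Algebra F E] (y : E),
      lx χ b₁ b₂ b₃ (minpoly F y) ^ (Module.finrank F E / (minpoly F y).natDegree) =
        χ (Algebra.norm F (1 + algebraMap F E b₁ * y)) *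
          (starRingEnd ℂ) (χ (Algebra.norm F (1 + algebraMap F E b₂ * y))) *
          (starRingEnd ℂ) (χ (Algebra.norm F (1 + algebraMap F E b₃ * y)))

/-- (VA) the coefficients of the `L`-function vanish. -/
def W_VA : Prop :=
  ∀ (F : Type) [Field F] [Fintype F] (χ : MulChar F ℂ) (b₁ b₂ b₃ : F), χ ≠ 1 → b₁ ≠ 0 →
    b₂ ≠ 0 → b₃ ≠ 0 → am F (lx χ b₁ b₂ b₃) 0 = 1 ∧ ∀ n : ℕ, 3 ≤ n → am F (lx χ b₁ b₂ b₃) n = 0

/-- (AN) from a bound for all extensions to the bound of Weil. -/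
def W_AN : Prop :=
  ∀ (a S : ℕ → ℂ) (q C : ℝ), 1 ≤ q → a 0 = 1 → (∀ n, 3 ≤ n → a n = 0) →
    (∀ n : ℕ, 1 ≤ n → (n : ℂ) * a n = ∑ k ∈ Finset.Icc 1 n, S k * a (n - k)) →
    (∀ k : ℕ, 1 ≤ k → ‖S k‖ ≤ C * q ^ ((k : ℝ) / 2)) → ‖S 1‖ ≤ 2 * Real.sqrt q

/-- (W3) three linear factors. -/
def W_W3 : Prop :=
  ∀ (F : Type) [Field F] [Fintype F] (χ : MulChar F ℂ) (b₁ b₂ b₃ : F), χ ≠ 1 → b₁ ≠ 0 →
    b₂ ≠ 0 → b₃ ≠ 0 →
    ‖∑ t : F, χ (1 + b₁ * t) * (starRingEnd ℂ) (χ (1 + b₂ * t)) *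
      (starRingEnd ℂ) (χ (1 + b₃ * t))‖ ≤ 2 * Real.sqrt (Fintype.card F)

/-- (W4) the bound of Weil for the complete sum. -/
def W_W4 : Prop :=
  ∀ (F : Type) [Field F] [Fintype F] (χ : MulChar F ℂ), χ ≠ 1 → ∀ a : Fin 4 → F, Iso a →
    ‖c4 (fun x => χ x) a‖ ≤ 3 * Real.sqrt (Fintype.card F)

end Pool.Agent.H23.BG
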