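import Pool.Agent.H29.DW.Fin
import Pool.Agent.H23.BG.UP
import Pool.Agent.H23.BG.MS
import Pool.Agent.H23.BG.IN
import Pool.Agent.H23.BG.WL
import Pool.Agent.H13.BR.CB
import Pool.Agent.H13.BR.NV
import Pool.Agent.H16.BG.P_HL
import Pool.Agent.H16.BG.P_MR
import Pool.Agent.H19.BG.L_CR
import Pool.Agent.H19.BG.P_FM
import Pool.Agent.H19.BG.P_LV
import Pool.Agent.H19.BG.P_MN
import Pool.Agent.H19.BG.P_N1
import Pool.Agent.H19.BG.P_N2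
import Pool.Agent.H20.BG.LG
import Pool.Agent.H20.BG.LO
import Pool.Agent.H20.BG.LS
import Pool.Agent.H23.BG.RS
import Pool.Agent.H23.BG.TR
import Pool.Agent.H26.BG.DU
import Pool.Agent.H26.BG.WB
import Pool.Agent.H27.BG.F_BS
import Pool.Agent.H27.BG.F_BU
import Pool.Agent.H28.BG.L_C4
import Pool.Agent.H28.BG.L_SG
import Pool.Agent.H28.BG.P_T5
import Pool.Agent.H34.BG.HD
import Pool.Agent.H34.BG.SC
import Pool.Agent.H48.BG.L2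
import Pool.Agent.H48.BG.RT
import Pool.Agent.H49.BG.AC
import Pool.Agent.H49.BG.GL
import Pool.Agent.H53.BG.L_LE
import Pool.Agent.H53.BG.L_NM
import Pool.Agent.H53.BG.L_PN
import Pool.Agent.H54.BG.W_AN
import Pool.Agent.H54.BG.W_W3
import Pool.Agent.H54.BG.W_W4
import Pool.Agent.H59.BG.L1
import Pool.Agent.H59.BG.M4
import Pool.Agent.H63.BG.P_WT
import Pool.Agent.H63.BG.P_ZM
import Pool.Agent.H63.BG.W_EP
import Pool.Agent.H63.BG.W_LX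
import Pool.Agent.H64.BG.P_PR
import Pool.Agent.H68.BG.F_BD
import Pool.Agent.H68.BG.P_T4
import Pool.Agent.H68.BG.W_NE
import Pool.Agent.H68.BG.W_VA
import Pool.Agent.H70.BG.W_EY
import Pool.Agent.H77.BG.W_EX
import Pool.Agent.H77.BG.W_ST
import Pool.Agent.H83.BG.SG
import Pool.Agent.H83.BG.SP
import Pool.Agent.H89.BG.BB
import Pool.Agent.H95.BG.P_T6
import Pool.Agent.H95.BG.P_TV
import Pool.Agent.H96.BG.L_MU
import Pool.Agent.H96.BG.P_SH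

/-!
# Subconvexity for all primitive Hecke characters, uniform in the number field: assembly
-/

set_option autoImplicit false

open NumberField NumberField.InfinitePlace Complex

namespace Pool.Agent.H23.BG.Chain

open Pool.Agent.H23.LB Pool.Agent.H23.LC Pool.Agent.H29.DW Pool.Agent.H29.DW.Base
open Pool.Agent.H29.DW.All
open Pool.Agent.H29.THC.Base (c_TH c_YC c_UI c_DU c_CT c_ID c_RX c_PU c_RR c_FP c_NS c_ME c_SY)
open Pool.Agent.H29.THC.All (a_CS a_EX a_CQ a_GX a_TR a_HR)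
open Pool.Agent.H23.BG

theorem e_HD : W_HD := Pool.Agent.H34.BG.HD.pf_W_HD
theorem e_NV : W_NV := Pool.Agent.H13.BR.pf_W_NV
theorem e_EX : W_EX := Pool.Agent.H77.BG.pf_W_EX
theorem e_VZ : W_VZ := Pool.Agent.H77.BG.pf_W_VZ
theorem e_ST : W_ST := Pool.Agent.H77.BG.pf_W_ST e_HD e_NV e_EX e_VZ
theorem e_SC : W_SC := Pool.Agent.H34.BG.SC.pf_W_SC e_ST
theorem e_NE : W_NE := Pool.Agent.H68.BG.pf_W_NE
theorem e_EP : W_EP := Pool.Agent.H63.BG.W_EP.pf_W_EP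
theorem e_EY : W_EY := Pool.Agent.H70.BG.pf_W_EY
theorem e_LX : W_LX := Pool.Agent.H63.BG.W_LX.pf_W_LX
theorem e_VA : W_VA := Pool.Agent.H68.BG.pf_W_VA
theorem e_AN : W_AN := Pool.Agent.H54.BG.pf_W_AN
theorem e_W3 : W_W3 := Pool.Agent.H54.BG.pf_W_W3 e_SC e_NE e_EP e_EY e_LX e_VA e_AN
theorem e_W4 : W_W4 := Pool.Agent.H54.BG.pf_W_W4 e_W3
theorem e_LG : L_LG := Pool.Agent.H20.BG.LG.pf_LG
theorem e_LO : L_LO := Pool.Agent.H20.BG.LO.pf_LO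
theorem e_LS : L_LS := Pool.Agent.H20.BG.LS.pf_LS
theorem e_LE : L_LE := Pool.Agent.H53.BG.pf_L_LE e_LS
theorem e_RT : L_RT := Pool.Agent.H48.BG.pf_L_RT
theorem e_PN : L_PN := Pool.Agent.H53.BG.pf_L_PN
theorem e_NM : L_NM := Pool.Agent.H53.BG.pf_L_NM
theorem e_L1 : L_L1 := Pool.Agent.H59.BG.L1.pf_L_L1 e_W4 e_PN
theorem e_L2 : L_L2 := Pool.Agent.H48.BG.pf_L_L2 e_PN e_LE e_LO
theorem e_CR : L_CR := Pool.Agent.H23.BG.pf_L_CR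
theorem e_AC : L_AC := Pool.Agent.H49.BG.pf_L_AC
theorem e_GL : L_GL := Pool.Agent.H49.BG.pf_L_GL e_L1 e_L2 e_CR e_NM e_AC
theorem e_LSG : L_SG := Pool.Agent.H28.BG.pf_L_SG u_AG
theorem e_C4 : L_C4 := Pool.Agent.H28.BG.pf_L_C4 a_GX Pool.Agent.H29.THC.pf_DF e_LSG e_GL
theorem e_CB : P_CB := Pool.Agent.H13.BR.pf_P_CB c_TH c_DU
theorem e_ZM : P_ZM := Pool.Agent.H63.BG.P_ZM.pf_P_ZM d_CT e_CB
theorem e_T4 : P_T4 := Pool.Agent.H68.BG.pf_P_T4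
theorem e_T5 : P_T5 := Pool.Agent.H28.BG.pf_P_T5 Pool.Agent.H29.THC.pf_DF
theorem e_T6 : P_T6 := Pool.Agent.H95.BG.pf_P_T6 e_CB e_ZM d_CT c_YC c_CT c_DU
theorem e_WT : P_WT := Pool.Agent.H63.BG.P_WT.pf_P_WT
theorem e_M4 : P_M4 := Pool.Agent.H59.BG.M4.pf_P_M4 e_T5 e_T6 e_WT e_C4 e_CB
  Pool.Agent.H29.THC.pf_DF Pool.Agent.H29.THC.pf_DV
theorem e_LV : P_LV := Pool.Agent.H23.BG.pf_P_LV
theorem e_MN : P_MN := Pool.Agent.H23.BG.pf_P_MN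
theorem e_FM : P_FM := Pool.Agent.H23.BG.pf_P_FM d_AVG d_JB d_CT e_LV c_TH
theorem e_N1 : P_N1 := Pool.Agent.H23.BG.pf_P_N1 e_FM
theorem e_TV : P_TV := Pool.Agent.H95.BG.pf_P_TV e_FM
theorem e_SH : P_SH := Pool.Agent.H96.BG.pf_P_SH c_TH
theorem e_PR : P_PR := Pool.Agent.H64.BG.P_PR.pf_P_PR
theorem e_UP : F_UP := Pool.Agent.H23.BG.UP.pf_UP u_CG u_AG c_PU
theorem e_MS : F_MS := Pool.Agent.H23.BG.MS.pf_MS c_TH c_YC c_FD
theorem e_IN : F_IN := Pool.Agent.H23.BG.IN.pf_IN c_TH c_YC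
theorem e_WL : F_WL := Pool.Agent.H23.BG.WL.pf_WL c_PU
theorem e_DU : F_DU := Pool.Agent.H26.BG.pf_F_DU u_AG c_PU c_ID c_DU c_RX c_RR u_DC

theorem e_SP : P_SP := Pool.Agent.H83.BG.SP.pf_P_SP
theorem e_SG : P_SG := Pool.Agent.H83.BG.SG.pf_P_SG e_SP
theorem e_HL : P_HL := Pool.Agent.H16.BG.pf_P_HL e_SG e_SH e_T4 e_MN e_CB
theorem e_N2 : P_N2 := Pool.Agent.H23.BG.pf_P_N2 e_FM e_N1 e_CB d_CT
theorem e_MR : P_MR := Pool.Agent.H16.BG.pf_P_MR e_HL e_N1 e_N2 e_M4 e_PR c_RX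
theorem e_BB : P_BB := Pool.Agent.H89.BG.pf_P_BB u_CG e_TV e_MR
theorem e_BS : F_BS := Pool.Agent.H27.BG.pf_F_BS e_IN e_BB e_MS d_PB c_TH c_YC c_FD u_CG
theorem e_BU : F_BU := Pool.Agent.H27.BG.pf_F_BU e_UP e_WL e_BS u_CG c_SY
theorem e_WB : F_WB :=
  Pool.Agent.H26.BG.pf_F_WB e_BU e_DU d_AE d_GH Pool.Agent.H63.HK.ds u_DC u_GE
theorem e_BD : F_BD := Pool.Agent.H68.BG.F_BD.pf_F_BD d_UP d_WL (d_BS d_TT) u_CG
  Pool.Agent.H29.THC.pf_DF c_RX c_SY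
theorem e_WD : F_WD :=
  Pool.Agent.H26.BG.pf_F_WD e_BD e_DU d_AE d_GH Pool.Agent.H63.HK.ds u_DC u_GE a_HR

/-- subconvexity for all primitive Hecke characters -/
theorem final : F_FI := Pool.Agent.H26.BG.pf_F_FI e_WB e_WD c_SY u_FK

end Pool.Agent.H23.BG.Chain
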