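import Mathlib

/-!
# The bound of Burgess for all primitive Hecke characters: definitions, part A
-/

set_option autoImplicit false

open Polynomial

namespace Pool.Agent.H23.BG

/-! ### Complete sums -/

/-- the complete sum `∑_y η(y + a_0) η(y + a_1) conj η(y + a_2) conj η(y + a_3)` -/
noncomputable def c4 {R : Type} [CommRing R] [Fintype R] (η : R → ℂ) (a : Fin 4 → R) : ℂ :=
  ∑ y : R, η (y + a 0) * η (y + a 1) * (starRingEnd ℂ) (η (y + a 2)) *
    (starRingEnd ℂ) (η (y + a 3))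

/-- the coefficients of the polynomial `α y ^ 2 + 2 β y + γ` of the stationary points -/
def al {R : Type} [CommRing R] (a : Fin 4 → R) : R := a 0 + a 1 - a 2 - a 3

/-- the coefficient `β` -/
def be {R : Type} [CommRing R] (a : Fin 4 → R) : R := a 0 * a 1 - a 2 * a 3

/-- the coefficient `γ` -/
def ga {R : Type} [CommRing R] (a : Fin 4 → R) : R :=
  (a 2 + a 3) * (a 0 * a 1) - (a 0 + a 1) * (a 2 * a 3)

/-- one of the four elements is different from the others -/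
def Iso {R : Type} (a : Fin 4 → R) : Prop := ∃ i, ∀ j, j ≠ i → a j ≠ a i

/-- the bounds for the complete sum: `N` is the norm of the modulus, `n₂, n₃, n₄` are the norms of
the ideals of coincidence, `A` is a constant -/
def Bd4 (A N n₂ n₃ n₄ x : ℝ) : Prop :=
  x ≤ N ∧ x ^ 6 ≤ A ^ 6 * N ^ 3 * (n₂ * n₃ * n₄) ^ 4 ∧ x ^ 4 ≤ A ^ 4 * N ^ 3 * (n₂ * n₃) ^ 2 ∧
    x ^ 4 ≤ A ^ 4 * N ^ 3 * (n₂ * n₄) ^ 2 ∧ x ^ 4 ≤ A ^ 4 * N ^ 3 * (n₃ * n₄) ^ 2

/-- the bound for the complete sum which follows from `Bd4` -/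
noncomputable def wt (A N n₂ n₃ n₄ : ℝ) : ℝ :=
  min N (min (A * N ^ (1 / 2 : ℝ) * (n₂ * n₃ * n₄) ^ (2 / 3 : ℝ))
    (min (A * N ^ (3 / 4 : ℝ) * (n₂ * n₃) ^ (1 / 2 : ℝ))
      (min (A * N ^ (3 / 4 : ℝ) * (n₂ * n₄) ^ (1 / 2 : ℝ))
        (A * N ^ (3 / 4 : ℝ) * (n₃ * n₄) ^ (1 / 2 : ℝ)))))

/-! ### Polynomials over finite fields -/

section FF

variable (F : Type) [Field F]

/-- the sum of `Xf` over the monic polynomials of degree `n` -/
noncomputable def am (Xf : F[X] → ℂ) (n : ℕ) : ℂ :=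
  ∑ᶠ g ∈ {g : F[X] | g.Monic ∧ g.natDegree = n}, Xf g

/-- the sum over the monic irreducible polynomials with degree dividing `k` -/
noncomputable def sm (Xf : F[X] → ℂ) (k : ℕ) : ℂ :=
  ∑ᶠ P ∈ {P : F[X] | P.Monic ∧ Irreducible P ∧ P.natDegree ∣ k},
    (P.natDegree : ℂ) * Xf P ^ (k / P.natDegree)

variable {F}

/-- the product of `1 + b y` over the roots `y` of the monic polynomial `g` (`b ≠ 0`) -/
noncomputable def rvp (b : F) (g : F[X]) : F := (-b) ^ g.natDegree * g.eval (-b⁻¹)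

/-- the multiplicative function of the character sum -/
noncomputable def lx (χ : MulChar F ℂ) (b₁ b₂ b₃ : F) (g : F[X]) : ℂ :=
  χ (rvp b₁ g) * (starRingEnd ℂ) (χ (rvp b₂ g)) * (starRingEnd ℂ) (χ (rvp b₃ g))

end FF

end Pool.Agent.H23.BG
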