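import Pool.Agent.H29.DW.Targets
import Pool.Agent.H23.BG.DefsA

/-!
# The bound of Burgess for all primitive Hecke characters: definitions
-/

set_option autoImplicit false

open NumberField NumberField.InfinitePlace NumberField.Units
  NumberField.Units.dirichletUnitTheorem MeasureTheory Set Filter Complex
open scoped nonZeroDivisors ENNReal

namespace Pool.Agent.H23.BG

open Pool.Agent.H25.HK Pool.Agent.H23.LB Pool.Agent.H23.LC Pool.Agent.H29.DW
open Pool.Agent.H28.RC (Rep ft idl)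
open Pool.Agent.H29.TC (dvs cq LC Gn MC)

section NF

variable {K : Type} [Field K] [NumberField K]

/-- the ideal `f + (b_i - b_j)` -/
def gd (f : Ideal (𝓞 K)) (b : Fin 4 → 𝓞 K) (i j : Fin 4) : Ideal (𝓞 K) :=
  f ⊔ Ideal.span {b i - b j}

variable (K)

/-- the constant of the local bounds -/
noncomputable def Ac (n : ℕ) (P : Ideal (𝓞 K)) : ℝ :=
  open scoped Classical in if (2 : 𝓞 K) ∈ P then 4 ^ (n + 1) else 4

/-- the number of the zeros of `α y ^ 2 + 2 β y + γ` modulo `P ^ k` -/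
noncomputable def nrt (P : Ideal (𝓞 K)) (k : ℕ) (α β γ : 𝓞 K) : ℕ :=
  Nat.card {u : 𝓞 K ⧸ P ^ k // Ideal.Quotient.mk (P ^ k) α * u ^ 2 +
    2 * Ideal.Quotient.mk (P ^ k) β * u + Ideal.Quotient.mk (P ^ k) γ = 0}

/-- the complete sum over the representatives `X` of `M / f M` -/
noncomputable def c4M (X : Finset K) (g : K → ℂ) (b : Fin 4 → K) : ℂ :=
  ∑ r ∈ X, g (r + b 0) * g (r + b 1) * (starRingEnd ℂ) (g (r + b 2)) *
    (starRingEnd ℂ) (g (r + b 3))

/-! ### Boxes -/

/-- the points of `L` with `|x|_v exp(y_v / 2) ≤ 1` for all `v` -/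
def Bx (L : FI K) (y : InfinitePlace K → ℝ) : Set K :=
  {x | x ∈ L ∧ ∀ v : InfinitePlace K, v x * Real.exp (y v / 2) ≤ 1}

/-- the number of the points in the box -/
noncomputable def cb (L : FI K) (y : InfinitePlace K → ℝ) : ℝ := ((Bx K L y).ncard : ℝ)

variable {K}

/-- the shift of the box to the radii `1 / (16 H_v)` -/
noncomputable def hs (H : InfinitePlace K → ℝ) (v : InfinitePlace K) : ℝ :=
  2 * Real.log (16 * H v)

/-- the averaged sum over the quadruples of points of `S` -/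
noncomputable def q4 (X : Finset K) (g : K → ℂ) (S : Set K) : ℝ :=
  (∑ᶠ b ∈ {b : Fin 4 → K | ∀ i, b i ∈ S}, ‖c4M K X g b‖) / (S.ncard : ℝ) ^ 4

variable (K)

open scoped Classical in
/-- the number of the points `x` of `M` with `|w_v(x) - 1| ≤ 1 / (8 H_v)` for all `v` -/
noncomputable def nn (M : FI K) (H : InfinitePlace K → ℝ) (y : InfinitePlace K → ℝ)
    (ω : InfinitePlace K → ℂ) : ℝ≥0∞ :=
  ∑' x : {x : K // x ∈ M}, if ∀ v : InfinitePlace K, H v * ‖wv v x.1 y ω - 1‖ ≤ 1 / 8 then 1 else 0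

open scoped Classical in
/-- the number of the points `x` of `M` with `x = a r` modulo `f M` and
`|w_v(x) / a - 1| ≤ 1 / (8 H_v)` for all `v` -/
noncomputable def nu (f : Ideal (𝓞 K)) (M : FI K) (H : InfinitePlace K → ℝ) (a : ℕ)
    (y : InfinitePlace K → ℝ) (ω : InfinitePlace K → ℂ) (r : K) : ℝ≥0∞ :=
  ∑' x : {x : K // x ∈ M}, if x.1 - (a : K) * r ∈ (f : FI K) * M ∧
    ∀ v : InfinitePlace K, H v * ‖wv v x.1 (fun v => y v - 2 * Real.log a) ω - 1‖ ≤ 1 / 8
      then 1 else 0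

variable {K}

/-! ### Test functions -/

/-- the parameters of the test functions: `|c_v| ≤ H_v ^ 2` -/
structure Pw (cp : InfinitePlace K → ℂ) (H : InfinitePlace K → ℝ) : Prop where
  one : ∀ v, 1 ≤ H v
  le : ∀ v, ‖cp v‖ ≤ H v ^ 2
  real : ∀ v, Rl (rv v) (cp v)

/-- `H_v = max(1, |c_v|) ^ (1/2)` -/
noncomputable def Hp2 (cp : InfinitePlace K → ℂ) (v : InfinitePlace K) : ℝ :=
  (max 1 ‖cp v‖) ^ (1 / 2 : ℝ)

/-- the square with the parameters of the separation of variables -/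
def Sq1 : Set ℂ := {s | |s.re| ≤ 1 / 8 ∧ |s.im| ≤ 1 / 8}

variable (K)

/-- the product of the squares -/
def SqK : Set (InfinitePlace K → ℂ) := Set.univ.pi fun _ => Sq1

variable {K}

/-- the bound for the sums over the positions with `V` points -/
noncomputable def Psi (n : ℕ) (N V : ℝ) : ℝ :=
  if V ≤ N ^ (1 / 2 : ℝ) then V ^ (1 / 2 : ℝ) * N ^ (1 / 4 - 1 / (16 * (n : ℝ)))
    else V ^ (5 / 4 : ℝ) * N ^ (-(1 / 8) - 1 / (16 * (n : ℝ)))

variable (K)

/-- the number of the points in a thin region -/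
noncomputable def Vt (H : InfinitePlace K → ℝ) (τ : ℝ) : ℝ :=
  Real.exp (-τ) / (Real.sqrt |(discr K : ℝ)| * HH H)

end NF

end Pool.Agent.H23.BG
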