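import Pool.Agent.H29.DW.Stmt

/-!
# Abbreviations for the statement of the subconvex bounds
-/

set_option autoImplicit false

open NumberField NumberField.InfinitePlace NumberField.Units MeasureTheory Set Filter Complex

namespace Pool.Agent.H23.BG

open Pool.Agent.H23.LC Pool.Agent.H29.DW

section

variable {K : Type} [Field K] [NumberField K]

/-- `|d_K|^(1/4) C_∞^(1/4) N(f)^(1/4 - 1/(16 m))`, where `m` is the degree of `K` -/
noncomputable def BurgessBound {f : Ideal (𝓞 K)} (χ : HG K f) (t : ℝ) : ℝ :=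
  |(discr K : ℝ)| ^ (1 / 4 : ℝ) * Ci χ.k χ.ν t ^ (1 / 4 : ℝ) *
    (Ideal.absNorm f : ℝ) ^ (1 / 4 - 1 / (16 * (Module.finrank ℚ K : ℝ)))

/-- `|d_K|^(1/4) (N(f) C_∞)^(1/4 - 1/(64 m + 12))`, where `m` is the degree of `K` -/
noncomputable def UniformBound {f : Ideal (𝓞 K)} (χ : HG K f) (t : ℝ) : ℝ :=
  |(discr K : ℝ)| ^ (1 / 4 : ℝ) *
    (Ideal.absNorm f * Ci χ.k χ.ν t) ^ (1 / 4 - 1 / (64 * (Module.finrank ℚ K : ℝ) + 12))

end

end Pool.Agent.H23.BG
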