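import Pool.Agent.H23.BG.Defs

/-!
# The bound of Burgess for all primitive Hecke characters: targets, part L

Complete sums modulo prime powers and modulo arbitrary ideals.
-/

set_option autoImplicit false

open NumberField NumberField.InfinitePlace NumberField.Units
  NumberField.Units.dirichletUnitTheorem MeasureTheory Set Filter Complex
open scoped nonZeroDivisors ENNReal

namespace Pool.Agent.H23.BG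

open Pool.Agent.H25.HK Pool.Agent.H23.LB Pool.Agent.H23.LC Pool.Agent.H29.DW
open Pool.Agent.H28.RC (Rep ft idl)
open Pool.Agent.H29.TC (dvs cq LC Gn MC)

/-- (LS) the complete sum in a finite ring is supported on the stationary points. -/
def L_LS : Prop :=
  ∀ (R : Type) [CommRing R] [Fintype R] (I : Ideal R) (η : R → ℂ), MC η →
    (∀ w : R, w ≠ 0 → ∃ r : R, IsUnit (1 + r * w) ∧ η (1 + r * w) ≠ 1) →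
    (∀ x ∈ I, ∀ y ∈ I, x * y = 0) → ∀ a : Fin 4 → R,
    ‖c4 η a‖ ≤ Nat.card {y : R // (∀ i, IsUnit (y + a i)) ∧
      ∀ k ∈ I, k * (al a * y ^ 2 + 2 * be a * y + ga a) = 0}

open scoped Classical in
/-- (LG) Gauss sums with a quadratic phase in a finite ring. -/
def L_LG : Prop :=
  ∀ (R : Type) [CommRing R] [Fintype R] (I J : Ideal R) (η : R → ℂ) (q : ℕ), MC η →
    (∀ w : R, w ≠ 0 → ∃ r : R, IsUnit (1 + r * w) ∧ η (1 + r * w) ≠ 1) → IsUnit (2 : R) →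
    (∀ x ∈ I, ∀ y ∈ I, ∀ z ∈ I, x * y * z = 0) → (∀ x ∈ I, ∀ y ∈ J, x * y = 0) → J ≤ I →
    Nat.card I = q * Nat.card J → (∀ m : R, ¬ IsUnit m → ∀ x ∈ I, ∀ y ∈ I, m * (x * y) = 0) →
    (∀ x ∈ I, (∀ y ∈ I, x * y = 0) → x ∈ J) → ∀ b c : R, b ∈ I →
    (IsUnit c → ‖∑ z : I, η (1 + z * b + z ^ 2 * c)‖ ≤ Nat.card J * Real.sqrt q) ∧
    (¬ IsUnit c → ‖∑ z : I, η (1 + z * b + z ^ 2 * c)‖ ≤ Nat.card I) ∧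
    (¬ IsUnit c → b ∉ J → ∑ z : I, η (1 + z * b + z ^ 2 * c) = 0)

/-- (LO) the complete sum modulo an odd power of an odd prime. -/
def L_LO : Prop :=
  ∀ (K : Type) [Field K] [NumberField K] (P : Ideal (𝓞 K)), P.IsPrime → P ≠ ⊥ →
    (2 : 𝓞 K) ∉ P → ∀ r : ℕ, 1 ≤ r → ∀ [Fintype (𝓞 K ⧸ P ^ (2 * r + 1))]
    (η : 𝓞 K ⧸ P ^ (2 * r + 1) → ℂ), LC (P ^ (2 * r + 1)) η → ∀ a : Fin 4 → 𝓞 K,
    ‖c4 η (fun i => Ideal.Quotient.mk (P ^ (2 * r + 1)) (a i))‖ ≤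
      Nf K P ^ r * (Real.sqrt (Nf K P) * nrt K P r (al a) (be a) (ga a) +
        nrt K P (r + 1) (al a) (be a) (ga a))

/-- (LE) the complete sum modulo a power of a prime. -/
def L_LE : Prop :=
  ∀ (K : Type) [Field K] [NumberField K] (P : Ideal (𝓞 K)), P.IsPrime → P ≠ ⊥ →
    ∀ r s : ℕ, r ≤ s → s ≤ r + 1 → 1 ≤ r → ∀ [Fintype (𝓞 K ⧸ P ^ (r + s))]
    (η : 𝓞 K ⧸ P ^ (r + s) → ℂ), LC (P ^ (r + s)) η → ∀ a : Fin 4 → 𝓞 K,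
    ‖c4 η (fun i => Ideal.Quotient.mk (P ^ (r + s)) (a i))‖ ≤
      Nf K P ^ s * nrt K P r (al a) (be a) (ga a)

/-- (RT) the number of the zeros of a quadratic polynomial modulo `P ^ k`. -/
def L_RT : Prop :=
  ∀ (K : Type) [Field K] [NumberField K] (P : Ideal (𝓞 K)), P.IsPrime → P ≠ ⊥ →
    ∀ (k t : ℕ) (α β γ : 𝓞 K), (2 : 𝓞 K) ∉ P ^ (t + 1) →
    (nrt K P k α β γ : ℝ) ≤ Nf K P ^ k ∧
    (∀ c : ℕ, ¬ (α ∈ P ^ (c + 1) ∧ 2 * β ∈ P ^ (c + 1) ∧ γ ∈ P ^ (c + 1)) →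
      (nrt K P k α β γ : ℝ) ^ 2 ≤ 4 * Nf K P ^ (2 * t) * Nf K P ^ (k + c)) ∧
    ∀ δ : ℕ, β ^ 2 - α * γ ∉ P ^ (δ + 1) →
      (nrt K P k α β γ : ℝ) ^ 2 ≤ 4 * Nf K P ^ (2 * t) * Nf K P ^ δ

/-- (RS) the resultant and the contents. -/
def L_RS : Prop :=
  ∀ (R : Type) [CommRing R] (a : Fin 4 → R),
    be a ^ 2 - al a * ga a = (a 0 - a 2) * (a 0 - a 3) * ((a 1 - a 2) * (a 1 - a 3)) ∧
    ∀ I : Ideal R, al a ∈ I → 2 * be a ∈ I → ga a ∈ I →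
      2 * ((a 0 - a 2) * (a 1 - a 2)) ∈ I ∧ 2 * ((a 0 - a 3) * (a 1 - a 3)) ∈ I ∧
      2 * ((a 0 - a 2) * (a 0 - a 3)) ∈ I ∧ 2 * ((a 1 - a 2) * (a 1 - a 3)) ∈ I

/-- (TR) inequalities for the exponents of four points; `v i j` is the valuation of the difference,
cut off at `e`. -/
def L_TR : Prop :=
  ∀ (v : Fin 4 → Fin 4 → ℕ), (∀ i j, v i j = v j i) →
    (∀ i j k, min (v i j) (v j k) ≤ v i k) →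
    (3 * (v 0 2 + v 0 3 + v 1 2 + v 1 3) ≤
      4 * (v 1 0 + max (v 2 0) (v 2 1) + max (max (v 3 0) (v 3 1)) (v 3 2))) ∧
    (∀ c : ℕ, c ≤ v 0 2 + v 1 2 → c ≤ v 0 3 + v 1 3 → c ≤ v 0 2 + v 0 3 → c ≤ v 1 2 + v 1 3 →
      c ≤ v 1 0 + max (v 2 0) (v 2 1) ∧
      c ≤ v 1 0 + max (max (v 3 0) (v 3 1)) (v 3 2) ∧
      c ≤ max (v 2 0) (v 2 1) + max (max (v 3 0) (v 3 1)) (v 3 2))

/-- (PN) the norms of the ideals of coincidence for a prime power. -/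
def L_PN : Prop :=
  ∀ (K : Type) [Field K] [NumberField K] (P : Ideal (𝓞 K)), P.IsPrime → P ≠ ⊥ → ∀ e : ℕ,
    ∀ a : Fin 4 → 𝓞 K, ∃ v : Fin 4 → Fin 4 → ℕ, (∀ i j, v i j = v j i) ∧
    (∀ i j k, min (v i j) (v j k) ≤ v i k) ∧ (∀ i j, v i j ≤ e) ∧ (∀ i, v i i = e) ∧
    (∀ i j, ∀ k ≤ e, a i - a j ∈ P ^ k ↔ k ≤ v i j) ∧
    (∀ i j, gd (P ^ e) a i j = P ^ v i j) ∧
    Nf K (gd (P ^ e) a 1 0) = Nf K P ^ v 1 0 ∧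
    Nf K (gd (P ^ e) a 2 0 ⊓ gd (P ^ e) a 2 1) = Nf K P ^ max (v 2 0) (v 2 1) ∧
    Nf K (gd (P ^ e) a 3 0 ⊓ gd (P ^ e) a 3 1 ⊓ gd (P ^ e) a 3 2) =
      Nf K P ^ max (max (v 3 0) (v 3 1)) (v 3 2)

/-- (L1) the complete sum modulo a prime. -/
def L_L1 : Prop :=
  ∀ n : ℕ, ∀ (K : Type) [Field K] [NumberField K], Module.finrank ℚ K = n →
    ∀ P : Ideal (𝓞 K), P.IsPrime → P ≠ ⊥ → ∀ [Fintype (𝓞 K ⧸ P ^ 1)] (η : 𝓞 K ⧸ P ^ 1 → ℂ),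
    LC (P ^ 1) η → ∀ a : Fin 4 → 𝓞 K,
    Bd4 (Ac K n P) (Nf K (P ^ 1)) (Nf K (gd (P ^ 1) a 1 0))
      (Nf K (gd (P ^ 1) a 2 0 ⊓ gd (P ^ 1) a 2 1))
      (Nf K (gd (P ^ 1) a 3 0 ⊓ gd (P ^ 1) a 3 1 ⊓ gd (P ^ 1) a 3 2))
      ‖c4 η (fun i => Ideal.Quotient.mk (P ^ 1) (a i))‖

/-- (L2) the complete sum modulo a prime power. -/
def L_L2 : Prop :=
  ∀ n : ℕ, ∀ (K : Type) [Field K] [NumberField K], Module.finrank ℚ K = n →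
    ∀ P : Ideal (𝓞 K), P.IsPrime → P ≠ ⊥ → ∀ e : ℕ, 2 ≤ e → ∀ [Fintype (𝓞 K ⧸ P ^ e)]
    (η : 𝓞 K ⧸ P ^ e → ℂ), LC (P ^ e) η → ∀ a : Fin 4 → 𝓞 K,
    Bd4 (Ac K n P) (Nf K (P ^ e)) (Nf K (gd (P ^ e) a 1 0))
      (Nf K (gd (P ^ e) a 2 0 ⊓ gd (P ^ e) a 2 1))
      (Nf K (gd (P ^ e) a 3 0 ⊓ gd (P ^ e) a 3 1 ⊓ gd (P ^ e) a 3 2))
      ‖c4 η (fun i => Ideal.Quotient.mk (P ^ e) (a i))‖

/-- (CR) the Chinese remainder theorem. -/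
def L_CR : Prop :=
  ∀ (K : Type) [Field K] [NumberField K] (f g : Ideal (𝓞 K)), f ≠ ⊥ → g ≠ ⊥ → f ⊔ g = ⊤ →
    ∀ [Fintype (𝓞 K ⧸ f)] [Fintype (𝓞 K ⧸ g)] [Fintype (𝓞 K ⧸ (f * g))]
    (η : 𝓞 K ⧸ (f * g) → ℂ), LC (f * g) η → ∃ (η₁ : 𝓞 K ⧸ f → ℂ) (η₂ : 𝓞 K ⧸ g → ℂ),
    LC f η₁ ∧ LC g η₂ ∧ ∀ a : Fin 4 → 𝓞 K,
      c4 η (fun i => Ideal.Quotient.mk (f * g) (a i)) =
        c4 η₁ (fun i => Ideal.Quotient.mk f (a i)) * c4 η₂ (fun i => Ideal.Quotient.mk g (a i))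

/-- (NM) the norms of the ideals of coincidence are multiplicative. -/
def L_NM : Prop :=
  ∀ (K : Type) [Field K] [NumberField K] (f g : Ideal (𝓞 K)), f ≠ ⊥ → g ≠ ⊥ → f ⊔ g = ⊤ →
    ∀ a : Fin 4 → 𝓞 K,
    Nf K (gd (f * g) a 1 0) = Nf K (gd f a 1 0) * Nf K (gd g a 1 0) ∧
    Nf K (gd (f * g) a 2 0 ⊓ gd (f * g) a 2 1) =
      Nf K (gd f a 2 0 ⊓ gd f a 2 1) * Nf K (gd g a 2 0 ⊓ gd g a 2 1) ∧
    Nf K (gd (f * g) a 3 0 ⊓ gd (f * g) a 3 1 ⊓ gd (f * g) a 3 2) =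
      Nf K (gd f a 3 0 ⊓ gd f a 3 1 ⊓ gd f a 3 2) *
        Nf K (gd g a 3 0 ⊓ gd g a 3 1 ⊓ gd g a 3 2)

/-- (AC) the product of the constants. -/
def L_AC : Prop :=
  ∀ n : ℕ, ∀ (K : Type) [Field K] [NumberField K], Module.finrank ℚ K = n →
    ∀ (f : Ideal (𝓞 K)) (S : Finset (Ideal (𝓞 K))), f ≠ ⊥ → (∀ P ∈ S, P.IsPrime ∧ f ≤ P) →
    ∏ P ∈ S, Ac K n P ≤ 4 ^ (n * (n + 1)) * ((dvs K f).card : ℝ) ^ 2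

/-- (GL) the complete sum modulo an ideal. -/
def L_GL : Prop :=
  ∀ n : ℕ, ∀ (K : Type) [Field K] [NumberField K], Module.finrank ℚ K = n →
    ∀ f : Ideal (𝓞 K), f ≠ ⊥ → ∀ [Fintype (𝓞 K ⧸ f)] (η : 𝓞 K ⧸ f → ℂ), LC f η →
    ∀ a : Fin 4 → 𝓞 K,
    Bd4 (4 ^ (n * (n + 1)) * ((dvs K f).card : ℝ) ^ 2) (Nf K f) (Nf K (gd f a 1 0))
      (Nf K (gd f a 2 0 ⊓ gd f a 2 1)) (Nf K (gd f a 3 0 ⊓ gd f a 3 1 ⊓ gd f a 3 2))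
      ‖c4 η (fun i => Ideal.Quotient.mk f (a i))‖

/-- (SG) the local structure of the coefficients of a primitive character. -/
def L_SG : Prop :=
  ∀ (K : Type) [Field K] [NumberField K] (f : Ideal (𝓞 K)), f ≠ ⊥ → f ≠ ⊤ → ∀ (χ : HG K f),
    PrG f χ → ∃ η : 𝓞 K ⧸ f → ℂ, LC f η ∧ ∀ (M : FI K) (x₀ : K), M ≠ 0 → Gn f M x₀ →
      ∃ c₀ : ℂ, ‖c₀‖ ≤ 1 ∧ ∀ x ∈ M, cg χ M x = c₀ * cq f η M x₀ x

/-- (MU) multiplicativity of the coefficients. -/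
def L_MU : Prop :=
  ∀ (K : Type) [Field K] [NumberField K] (f : Ideal (𝓞 K)), f ≠ ⊥ → f ≠ ⊤ → ∀ (χ : HG K f)
    (a : ℕ), Ideal.span {(a : 𝓞 K)} ⊔ f = ⊤ → ∃ ω : ℂ, ‖ω‖ = 1 ∧
    ∀ (M : FI K), M ≠ 0 → (∀ x ∈ M, cg χ M ((a : K) * x) = ω * cg χ M x) ∧
      ∀ (X : Finset K), Rep K f M X → ∀ x ∈ M, ∃! r, r ∈ X ∧ x - (a : K) * r ∈ (f : FI K) * M

/-- (C4) the complete sums of the coefficients. -/
def L_C4 : Prop :=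
  ∀ n : ℕ, ∀ (K : Type) [Field K] [NumberField K], Module.finrank ℚ K = n →
    ∀ f : Ideal (𝓞 K), f ≠ ⊥ → f ≠ ⊤ → ∀ (χ : HG K f), PrG f χ → ∀ (M : FI K) (X : Finset K),
    M ≠ 0 → Rep K f M X → ∀ b : Fin 4 → K, (∀ i, b i ∈ M) →
    ∃ e : Fin 4 → Fin 4 → Ideal (𝓞 K),
      (∀ i j, e i j ∈ dvs K f ∧ b i - b j ∈ ((e i j : Ideal (𝓞 K)) : FI K) * M) ∧
      ‖c4M K X (cg χ M) b‖ ≤ wt (4 ^ (n * (n + 1)) * ((dvs K f).card : ℝ) ^ 2) (Nf K f)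
        (Nf K (e 1 0)) (Nf K (e 2 0 ⊓ e 2 1)) (Nf K (e 3 0 ⊓ e 3 1 ⊓ e 3 2))

end Pool.Agent.H23.BG
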